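import Pool.Agent.Helper6.TOP.Sym

/-!
# Project TOP, level C: covers

`chart_all`: the rational chart of the chamber. `UT`: a tree of cells in the chart; `UT.cover`.
`PT`: a tree of boxes in `p` with abstract leaves; `pchk_sound`.
-/

set_option autoImplicit false
set_option linter.all false

namespace Pool.Agent.Helper6.TOP

/-- the chart -/
noncomputable def chD (a b : ℝ) : ℝ := 1 + a ^ 2 + b ^ 2

theorem chD_pos (a b : ℝ) : 0 < chD a b := by unfold chD; positivity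

/-- the three coordinates of the point of the sphere -/
noncomputable def ch0 (a b : ℝ) : ℝ := (1 - a ^ 2 - b ^ 2) / chD a b
noncomputable def ch1 (a b : ℝ) : ℝ := 2 * a / chD a b
noncomputable def ch2 (a b : ℝ) : ℝ := 2 * b / chD a b

theorem ch_unit (a b : ℝ) : ch0 a b ^ 2 + ch1 a b ^ 2 + ch2 a b ^ 2 = 1 := by
  have h := (chD_pos a b).ne'
  unfold ch0 ch1 ch2
  rw [div_pow, div_pow, div_pow, ← add_div, ← add_div, div_eq_one_iff_eq (by positivity)]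
  unfold chD
  ring

/-- **the chamber is covered by the chart** `0 ≤ b ≤ a`, `a² + b² + 2a ≤ 1` -/
theorem chart_all {P : ℝ → ℝ → ℝ → Prop}
    (h : ∀ a b : ℝ, 0 ≤ b → b ≤ a → a ^ 2 + b ^ 2 + 2 * a ≤ 1 → P (ch0 a b) (ch1 a b) (ch2 a b)) :
    ∀ u0 u1 u2 : ℝ, u0 ^ 2 + u1 ^ 2 + u2 ^ 2 = 1 → 0 ≤ u2 → u2 ≤ u1 → u1 ≤ u0 → P u0 u1 u2 := by
  intro u0 u1 u2 hu h2 h1 h0
  have hu0 : 0 ≤ u0 := by linarith
  have hp : 0 < 1 + u0 := by linarith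
  have hD : chD (u1 / (1 + u0)) (u2 / (1 + u0)) = 2 / (1 + u0) := by
    unfold chD
    rw [div_pow, div_pow, eq_div_iff hp.ne']
    field_simp
    nlinarith
  have e1 : ch1 (u1 / (1 + u0)) (u2 / (1 + u0)) = u1 := by
    unfold ch1; rw [hD]; field_simp
  have e2 : ch2 (u1 / (1 + u0)) (u2 / (1 + u0)) = u2 := by
    unfold ch2; rw [hD]; field_simp
  have e0 : ch0 (u1 / (1 + u0)) (u2 / (1 + u0)) = u0 := by
    unfold ch0; rw [hD]
    rw [div_pow, div_pow, div_eq_iff (by positivity)]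
    field_simp
    nlinarith
  have := h (u1 / (1 + u0)) (u2 / (1 + u0)) (by positivity)
    (div_le_div_of_nonneg_right h1 hp.le) (by
      rw [div_pow, div_pow, ← add_div, mul_div_assoc']
      rw [div_add_div _ _ (by positivity) hp.ne', div_le_one (by positivity)]
      have : u1 * (1 + u0) ≤ u0 * (1 + u0) := mul_le_mul_of_nonneg_right h0 hp.le
      nlinarith)
  rwa [e0, e1, e2] at this

/-! ### cells of the chart -/

/-- a cell of the chart: `a ∈ [i/2^qa, (i+1)/2^qa]`, `b ∈ [j/2^qb, (j+1)/2^qb]` -/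
structure UC where
  qa : ℕ
  i : ℕ
  qb : ℕ
  j : ℕ
deriving DecidableEq

/-- the closed cell -/
def UC.mem (c : UC) (a b : ℝ) : Prop :=
  (c.i : ℝ) ≤ a * 2 ^ c.qa ∧ a * 2 ^ c.qa ≤ c.i + 1 ∧
    (c.j : ℝ) ≤ b * 2 ^ c.qb ∧ b * 2 ^ c.qb ≤ c.j + 1

/-- the half open cell -/
def UC.mem' (c : UC) (a b : ℝ) : Prop :=
  (c.i : ℝ) ≤ a * 2 ^ c.qa ∧ a * 2 ^ c.qa < c.i + 1 ∧
    (c.j : ℝ) ≤ b * 2 ^ c.qb ∧ b * 2 ^ c.qb < c.j + 1

theorem UC.mem'.mem {c : UC} {a b : ℝ} (h : c.mem' a b) : c.mem a b :=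
  ⟨h.1, h.2.1.le, h.2.2.1, h.2.2.2.le⟩

/-- the cell misses the chamber -/
def UC.out (c : UC) : Bool :=
  Nat.ble ((c.i + 1) * 2 ^ c.qb) (c.j * 2 ^ c.qa) ||
    Nat.blt (4 ^ c.qa * 4 ^ c.qb)
      (c.i ^ 2 * 4 ^ c.qb + c.j ^ 2 * 4 ^ c.qa + 2 * c.i * 2 ^ c.qa * 4 ^ c.qb)

theorem UC.out_sound {c : UC} (h : c.out = true) {a b : ℝ} (hm : c.mem' a b) (hb : 0 ≤ b)
    (hba : b ≤ a) (hc : a ^ 2 + b ^ 2 + 2 * a ≤ 1) : False := by
  obtain ⟨h1, h2, h3, h4⟩ := hm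
  have pa : (0 : ℝ) < 2 ^ c.qa := by positivity
  have pb : (0 : ℝ) < 2 ^ c.qb := by positivity
  have ha : 0 ≤ a := hb.trans hba
  unfold UC.out at h
  rw [Bool.or_eq_true] at h
  rcases h with h | h
  · have h' : (c.i + 1) * 2 ^ c.qb ≤ c.j * 2 ^ c.qa := Nat.le_of_ble_eq_true h
    have h'' : ((c.i : ℝ) + 1) * 2 ^ c.qb ≤ c.j * 2 ^ c.qa := by exact_mod_cast h'
    have s1 : a * 2 ^ c.qa * 2 ^ c.qb < (c.i + 1) * 2 ^ c.qb := mul_lt_mul_of_pos_right h2 pb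
    have s2 : (c.j : ℝ) * 2 ^ c.qa ≤ b * 2 ^ c.qb * 2 ^ c.qa := mul_le_mul_of_nonneg_right h3 pa.le
    have s3 : b * (2 ^ c.qb * 2 ^ c.qa) ≤ a * (2 ^ c.qb * 2 ^ c.qa) :=
      mul_le_mul_of_nonneg_right hba (by positivity)
    nlinarith
  · have h' : 4 ^ c.qa * 4 ^ c.qb <
        c.i ^ 2 * 4 ^ c.qb + c.j ^ 2 * 4 ^ c.qa + 2 * c.i * 2 ^ c.qa * 4 ^ c.qb := by
      simpa [Nat.blt, Nat.ble_eq] using h
    have h'' : (4 : ℝ) ^ c.qa * 4 ^ c.qb <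
        (c.i : ℝ) ^ 2 * 4 ^ c.qb + (c.j : ℝ) ^ 2 * 4 ^ c.qa + 2 * c.i * 2 ^ c.qa * 4 ^ c.qb := by
      exact_mod_cast h'
    have e4 : (4 : ℝ) ^ c.qa = 2 ^ c.qa * 2 ^ c.qa := by
      rw [← mul_pow]; norm_num
    have f4 : (4 : ℝ) ^ c.qb = 2 ^ c.qb * 2 ^ c.qb := by
      rw [← mul_pow]; norm_num
    set A : ℝ := 2 ^ c.qa
    set B : ℝ := 2 ^ c.qb
    have t1 : (c.i : ℝ) ^ 2 ≤ (a * A) ^ 2 := pow_le_pow_left₀ (Nat.cast_nonneg _) h1 2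
    have t2 : (c.j : ℝ) ^ 2 ≤ (b * B) ^ 2 := pow_le_pow_left₀ (Nat.cast_nonneg _) h3 2
    have u1 : (c.i : ℝ) ^ 2 * 4 ^ c.qb ≤ (a * A) ^ 2 * 4 ^ c.qb :=
      mul_le_mul_of_nonneg_right t1 (by positivity)
    have u2 : (c.j : ℝ) ^ 2 * 4 ^ c.qa ≤ (b * B) ^ 2 * 4 ^ c.qa :=
      mul_le_mul_of_nonneg_right t2 (by positivity)
    have u3 : 2 * (c.i : ℝ) * A * 4 ^ c.qb ≤ 2 * (a * A) * A * 4 ^ c.qb :=
      mul_le_mul_of_nonneg_right (mul_le_mul_of_nonneg_right (by linarith) pa.le) (by positivity)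
    have v : (a ^ 2 + b ^ 2 + 2 * a) * (A * A * (B * B)) ≤ 1 * (A * A * (B * B)) :=
      mul_le_mul_of_nonneg_right hc (by positivity)
    rw [e4, f4] at h''
    rw [f4] at u1 u3
    rw [e4] at u2
    nlinarith

/-- a tree of cells -/
inductive UT where
  | out : UT
  | leaf : UT
  | cut : Bool → UT → UT → UT

/-- the halves of a cell -/
def UC.lo (c : UC) : Bool → UC
  | true => ⟨c.qa + 1, 2 * c.i, c.qb, c.j⟩
  | false => ⟨c.qa, c.i, c.qb + 1, 2 * c.j⟩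

def UC.hi (c : UC) : Bool → UC
  | true => ⟨c.qa + 1, 2 * c.i + 1, c.qb, c.j⟩
  | false => ⟨c.qa, c.i, c.qb + 1, 2 * c.j + 1⟩

theorem UC.halves {c : UC} {a b : ℝ} (h : c.mem' a b) (d : Bool) :
    (c.lo d).mem' a b ∨ (c.hi d).mem' a b := by
  obtain ⟨h1, h2, h3, h4⟩ := h
  cases d
  · rcases lt_or_ge (b * 2 ^ (c.qb + 1)) (2 * c.j + 1) with h | h
    · left
      refine ⟨h1, h2, ?_, ?_⟩
      · show ((2 * c.j : ℕ) : ℝ) ≤ b * 2 ^ (c.qb + 1)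
        push_cast; rw [pow_succ]; linarith
      · show b * 2 ^ (c.qb + 1) < ((2 * c.j : ℕ) : ℝ) + 1
        push_cast; exact h
    · right
      refine ⟨h1, h2, ?_, ?_⟩
      · show ((2 * c.j + 1 : ℕ) : ℝ) ≤ b * 2 ^ (c.qb + 1)
        push_cast; exact h
      · show b * 2 ^ (c.qb + 1) < ((2 * c.j + 1 : ℕ) : ℝ) + 1
        push_cast; rw [pow_succ]; linarith
  · rcases lt_or_ge (a * 2 ^ (c.qa + 1)) (2 * c.i + 1) with h | h
    · left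
      refine ⟨?_, ?_, h3, h4⟩
      · show ((2 * c.i : ℕ) : ℝ) ≤ a * 2 ^ (c.qa + 1)
        push_cast; rw [pow_succ]; linarith
      · show a * 2 ^ (c.qa + 1) < ((2 * c.i : ℕ) : ℝ) + 1
        push_cast; exact h
    · right
      refine ⟨?_, ?_, h3, h4⟩
      · show ((2 * c.i + 1 : ℕ) : ℝ) ≤ a * 2 ^ (c.qa + 1)
        push_cast; exact h
      · show a * 2 ^ (c.qa + 1) < ((2 * c.i + 1 : ℕ) : ℝ) + 1
        push_cast; rw [pow_succ]; linarith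

/-- all the leaves `out` are outside of the chamber -/
def UT.ok : UT → UC → Bool
  | UT.out, c => c.out
  | UT.leaf, _ => true
  | UT.cut d l r, c => UT.ok l (c.lo d) && UT.ok r (c.hi d)

/-- the cells of the leaves -/
def UT.leaves : UT → UC → List UC
  | UT.out, _ => []
  | UT.leaf, c => [c]
  | UT.cut d l r, c => UT.leaves l (c.lo d) ++ UT.leaves r (c.hi d)

theorem UT.cover_aux {Q : ℝ → ℝ → Prop} (t : UT) : ∀ c : UC, t.ok c = true →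
    (∀ c' ∈ t.leaves c, ∀ a b, UC.mem c' a b → Q a b) →
    ∀ a b : ℝ, c.mem' a b → 0 ≤ b → b ≤ a → a ^ 2 + b ^ 2 + 2 * a ≤ 1 → Q a b := by
  induction t with
  | out =>
    intro c h _ a b hm hb hba hc
    exact (UC.out_sound h hm hb hba hc).elim
  | leaf =>
    intro c _ h a b hm _ _ _
    exact h c (by simp [UT.leaves]) a b hm.mem
  | cut d l r ihl ihr =>
    intro c h hl a b hm hb hba hc
    rw [UT.ok, Bool.and_eq_true] at h
    rcases UC.halves hm d with h' | h'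
    · exact ihl _ h.1 (fun c' hc' => hl c' (by simp [UT.leaves, hc'])) a b h' hb hba hc
    · exact ihr _ h.2 (fun c' hc' => hl c' (by simp [UT.leaves, hc'])) a b h' hb hba hc

/-- the root: `0 ≤ a, b < 1/2` -/
def rootU : UC := ⟨1, 0, 1, 0⟩

/-- **the cover of the chart of the chamber** -/
theorem UT.cover {Q : ℝ → ℝ → Prop} (t : UT) (h : t.ok rootU = true)
    (hl : ∀ c ∈ t.leaves rootU, ∀ a b, UC.mem c a b → Q a b) :
    ∀ a b : ℝ, 0 ≤ b → b ≤ a → a ^ 2 + b ^ 2 + 2 * a ≤ 1 → Q a b := by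
  intro a b hb hba hc
  refine UT.cover_aux t rootU h hl a b ?_ hb hba hc
  have ha : a < 1 / 2 := by nlinarith
  refine ⟨?_, ?_, ?_, ?_⟩ <;> simp only [rootU, Nat.cast_zero, pow_one] <;> linarith

/-! ### boxes in `p` -/

/-- a box: `p_k ∈ [(X_k - 3)/2^(m_k), (X_k + 3)/2^(m_k)]` -/
structure PB where
  X0 : ℤ
  m0 : ℕ
  X1 : ℤ
  m1 : ℕ
  X2 : ℤ
  m2 : ℕ
deriving DecidableEq

def in1 (X : ℤ) (m : ℕ) (x : ℝ) : Prop := (X : ℝ) - 3 ≤ x * 2 ^ m ∧ x * 2 ^ m ≤ X + 3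

def PB.mem (B : PB) (x y z : ℝ) : Prop := in1 B.X0 B.m0 x ∧ in1 B.X1 B.m1 y ∧ in1 B.X2 B.m2 z

/-- the halves of a box in the direction `k` -/
def PB.lo (B : PB) : ℕ → PB
  | 0 => ⟨2 * B.X0 - 3, B.m0 + 1, B.X1, B.m1, B.X2, B.m2⟩
  | 1 => ⟨B.X0, B.m0, 2 * B.X1 - 3, B.m1 + 1, B.X2, B.m2⟩
  | _ + 2 => ⟨B.X0, B.m0, B.X1, B.m1, 2 * B.X2 - 3, B.m2 + 1⟩

def PB.hi (B : PB) : ℕ → PB
  | 0 => ⟨2 * B.X0 + 3, B.m0 + 1, B.X1, B.m1, B.X2, B.m2⟩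
  | 1 => ⟨B.X0, B.m0, 2 * B.X1 + 3, B.m1 + 1, B.X2, B.m2⟩
  | _ + 2 => ⟨B.X0, B.m0, B.X1, B.m1, 2 * B.X2 + 3, B.m2 + 1⟩

theorem in1_halves {X : ℤ} {m : ℕ} {x : ℝ} (h : in1 X m x) :
    in1 (2 * X - 3) (m + 1) x ∨ in1 (2 * X + 3) (m + 1) x := by
  obtain ⟨h1, h2⟩ := h
  unfold in1
  rcases le_total (x * 2 ^ m) X with h | h
  · left
    constructor <;> push_cast <;> rw [pow_succ] <;> linarith
  · right
    constructor <;> push_cast <;> rw [pow_succ] <;> linarith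

theorem PB.halves {B : PB} {x y z : ℝ} (h : B.mem x y z) (k : ℕ) :
    (B.lo k).mem x y z ∨ (B.hi k).mem x y z := by
  obtain ⟨h1, h2, h3⟩ := h
  match k with
  | 0 => exact (in1_halves h1).imp (fun h => ⟨h, h2, h3⟩) fun h => ⟨h, h2, h3⟩
  | 1 => exact (in1_halves h2).imp (fun h => ⟨h1, h, h3⟩) fun h => ⟨h1, h, h3⟩
  | _ + 2 => exact (in1_halves h3).imp (fun h => ⟨h1, h2, h⟩) fun h => ⟨h1, h2, h⟩

/-- a tree of boxes with abstract leaves -/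
inductive PT (δ : Type) where
  | leaf : δ → PT δ
  | cut : ℕ → PT δ → PT δ → PT δ

/-- the check of the tree -/
def pchk {δ : Type} (ok : PB → δ → Bool) : PT δ → PB → Bool
  | PT.leaf d, B => ok B d
  | PT.cut k l r, B => pchk ok l (B.lo k) && pchk ok r (B.hi k)

theorem pchk_sound {δ : Type} {ok : PB → δ → Bool} {Good : ℝ → ℝ → ℝ → Prop}
    (hok : ∀ B d, ok B d = true → ∀ x y z, PB.mem B x y z → Good x y z) :
    ∀ (t : PT δ) (B : PB), pchk ok t B = true → ∀ x y z, B.mem x y z → Good x y z := by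
  intro t
  induction t with
  | leaf d => intro B h x y z hm; exact hok B d h x y z hm
  | cut k l r ihl ihr =>
    intro B h x y z hm
    rw [pchk, Bool.and_eq_true] at h
    rcases PB.halves hm k with h' | h'
    · exact ihl _ h.1 x y z h'
    · exact ihr _ h.2 x y z h'

/-- the root box: `|p_k| ≤ 3/8` -/
def rootP : PB := ⟨0, 3, 0, 3, 0, 3⟩

theorem rootP_mem {x y z : ℝ} (hx : |x| ≤ 3 / 8) (hy : |y| ≤ 3 / 8) (hz : |z| ≤ 3 / 8) :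
    rootP.mem x y z := by
  rw [abs_le] at hx hy hz
  refine ⟨⟨?_, ?_⟩, ⟨?_, ?_⟩, ⟨?_, ?_⟩⟩ <;> simp only [rootP] <;> push_cast <;> linarith [hx.1, hx.2,
    hy.1, hy.2, hz.1, hz.2]

/-- the points with `|p ± u/2|² ≤ 3/8` are in the root box -/
theorem rootP_mem' {a b c x y z : ℝ} (hu : a ^ 2 + b ^ 2 + c ^ 2 = 1)
    (h1 : (x + a / 2) ^ 2 + (y + b / 2) ^ 2 + (z + c / 2) ^ 2 ≤ 3 / 8)
    (h2 : (x - a / 2) ^ 2 + (y - b / 2) ^ 2 + (z - c / 2) ^ 2 ≤ 3 / 8) : rootP.mem x y z := by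
  have h : x ^ 2 + y ^ 2 + z ^ 2 ≤ 1 / 8 := by nlinarith
  refine rootP_mem ?_ ?_ ?_ <;> refine abs_le_of_sq_le_sq' ?_ (by norm_num) |> abs_le.2 <;>
    nlinarith [sq_nonneg x, sq_nonneg y, sq_nonneg z]

/-! ### the assembly -/

/-- a statement on all pairs of the closed cell and the root box, in the chart -/
def CellAll (P : ℝ → ℝ → ℝ → ℝ → ℝ → ℝ → Prop) (c : UC) : Prop :=
  ∀ a b : ℝ, c.mem a b → ∀ x y z : ℝ, rootP.mem x y z → P (ch0 a b) (ch1 a b) (ch2 a b) x y z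

/-- **from the cells to the chamber** -/
theorem UT.assemble {P : ℝ → ℝ → ℝ → ℝ → ℝ → ℝ → Prop} (t : UT) (h : t.ok rootU = true)
    (hroot : ∀ u0 u1 u2 x y z : ℝ, u0 ^ 2 + u1 ^ 2 + u2 ^ 2 = 1 → ¬ rootP.mem x y z →
      P u0 u1 u2 x y z)
    (hl : ∀ c ∈ t.leaves rootU, CellAll P c) :
    ∀ u0 u1 u2 x y z : ℝ, u0 ^ 2 + u1 ^ 2 + u2 ^ 2 = 1 → 0 ≤ u2 → u2 ≤ u1 → u1 ≤ u0 →
      P u0 u1 u2 x y z := by
  intro u0 u1 u2 x y z hu h2 h1 h0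
  by_cases hm : rootP.mem x y z
  · exact chart_all (P := fun u0 u1 u2 => P u0 u1 u2 x y z)
      (t.cover h fun c hc a b hab => hl c hc a b hab x y z hm) u0 u1 u2 hu h2 h1 h0
  · exact hroot u0 u1 u2 x y z hu hm

/-- the `p`-tree of a cell: `ok` may contain anything precomputed for the cell -/
theorem cellAll_of_tree {P : ℝ → ℝ → ℝ → ℝ → ℝ → ℝ → Prop} {δ : Type} {c : UC}
    {ok : PB → δ → Bool}
    (hok : ∀ B d, ok B d = true → ∀ a b : ℝ, c.mem a b → ∀ x y z : ℝ, PB.mem B x y z →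
      P (ch0 a b) (ch1 a b) (ch2 a b) x y z)
    (t : PT δ) (h : pchk ok t rootP = true) : CellAll P c := by
  intro a b hab x y z hm
  exact pchk_sound (Good := fun x y z => P (ch0 a b) (ch1 a b) (ch2 a b) x y z)
    (fun B d hB x y z hm => hok B d hB a b hab x y z hm) t rootP h x y z hm

/-- lists of cells -/
def AllC (P : ℝ → ℝ → ℝ → ℝ → ℝ → ℝ → Prop) (L : List UC) : Prop := ∀ c ∈ L, CellAll P c

theorem AllC.nil {P : ℝ → ℝ → ℝ → ℝ → ℝ → ℝ → Prop} : AllC P [] := by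
  intro c hc; cases hc

theorem AllC.cons {P : ℝ → ℝ → ℝ → ℝ → ℝ → ℝ → Prop} {c : UC} {L : List UC}
    (h : CellAll P c) (hL : AllC P L) : AllC P (c :: L) := by
  intro c' hc'
  rcases List.mem_cons.1 hc' with rfl | h'
  · exact h
  · exact hL _ h'

theorem AllC.append {P : ℝ → ℝ → ℝ → ℝ → ℝ → ℝ → Prop} {L M : List UC}
    (h : AllC P L) (hM : AllC P M) : AllC P (L ++ M) := by
  intro c hc
  rcases List.mem_append.1 hc with h' | h'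
  · exact h _ h'
  · exact hM _ h'

/-- the assembly from one list of all the leaves (`hL` by `decide`) -/
theorem UT.assemble_list {P : ℝ → ℝ → ℝ → ℝ → ℝ → ℝ → Prop} (t : UT) (L : List UC)
    (h : t.ok rootU = true) (hL : t.leaves rootU = L)
    (hroot : ∀ u0 u1 u2 x y z : ℝ, u0 ^ 2 + u1 ^ 2 + u2 ^ 2 = 1 → ¬ rootP.mem x y z →
      P u0 u1 u2 x y z)
    (hl : AllC P L) :
    ∀ u0 u1 u2 x y z : ℝ, u0 ^ 2 + u1 ^ 2 + u2 ^ 2 = 1 → 0 ≤ u2 → u2 ≤ u1 → u1 ≤ u0 →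
      P u0 u1 u2 x y z :=
  t.assemble h hroot fun c hc => hl c (hL ▸ hc)

end Pool.Agent.Helper6.TOP
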