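import Pool.Agent.Helper6.TOP.Cov

/-!
# Project TOP, level C: one cell over several modules

`BoxAll P c B`: the statement on all pairs of the cell `c` and the box `B`. One cell of the chart
can be spread over several modules: `BoxAll.of_tree` on the boxes of a skeleton, `BoxAll.cut` /
`SK.glue` glue them, `CellAll.of_box` / `CellAll.of_skel` finish.
-/

set_option autoImplicit false
set_option linter.all false

namespace Pool.Agent.Helper6.TOP

/-- a statement on all pairs of the closed cell and the box, in the chart -/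
def BoxAll (P : ℝ → ℝ → ℝ → ℝ → ℝ → ℝ → Prop) (c : UC) (B : PB) : Prop :=
  ∀ a b : ℝ, c.mem a b → ∀ x y z : ℝ, B.mem x y z → P (ch0 a b) (ch1 a b) (ch2 a b) x y z

section
variable {P : ℝ → ℝ → ℝ → ℝ → ℝ → ℝ → Prop} {c : UC}

theorem CellAll.of_box (h : BoxAll P c rootP) : CellAll P c := h

theorem CellAll.box (h : CellAll P c) : BoxAll P c rootP := h

/-- the tree on a box -/
theorem BoxAll.of_tree {δ : Type} {ok : PB → δ → Bool}
    (hok : ∀ B d, ok B d = true → ∀ a b : ℝ, c.mem a b → ∀ x y z : ℝ, PB.mem B x y z →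
      P (ch0 a b) (ch1 a b) (ch2 a b) x y z)
    (B : PB) (t : PT δ) (h : pchk ok t B = true) : BoxAll P c B := by
  intro a b hab x y z hm
  exact pchk_sound (Good := fun x y z => P (ch0 a b) (ch1 a b) (ch2 a b) x y z)
    (fun B d hB x y z hm => hok B d hB a b hab x y z hm) t B h x y z hm

/-- two halves in the direction `k` -/
theorem BoxAll.cut {B : PB} (k : ℕ) (h1 : BoxAll P c (B.lo k)) (h2 : BoxAll P c (B.hi k)) :
    BoxAll P c B := by
  intro a b hab x y z hm
  rcases PB.halves hm k with h | h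
  · exact h1 a b hab x y z h
  · exact h2 a b hab x y z h

/-- two halves of the cell of the chart -/
theorem UC.halves' {a b : ℝ} (h : c.mem a b) (d : Bool) : (c.lo d).mem a b ∨ (c.hi d).mem a b := by
  obtain ⟨h1, h2, h3, h4⟩ := h
  cases d
  · rcases le_total (b * 2 ^ (c.qb + 1)) (2 * c.j + 1) with h | h
    · left
      refine ⟨h1, h2, ?_, ?_⟩
      · show ((2 * c.j : ℕ) : ℝ) ≤ b * 2 ^ (c.qb + 1)
        push_cast; rw [pow_succ]; linarith
      · show b * 2 ^ (c.qb + 1) ≤ ((2 * c.j : ℕ) : ℝ) + 1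
        push_cast; exact h
    · right
      refine ⟨h1, h2, ?_, ?_⟩
      · show ((2 * c.j + 1 : ℕ) : ℝ) ≤ b * 2 ^ (c.qb + 1)
        push_cast; exact h
      · show b * 2 ^ (c.qb + 1) ≤ ((2 * c.j + 1 : ℕ) : ℝ) + 1
        push_cast; rw [pow_succ]; linarith
  · rcases le_total (a * 2 ^ (c.qa + 1)) (2 * c.i + 1) with h | h
    · left
      refine ⟨?_, ?_, h3, h4⟩
      · show ((2 * c.i : ℕ) : ℝ) ≤ a * 2 ^ (c.qa + 1)
        push_cast; rw [pow_succ]; linarith
      · show a * 2 ^ (c.qa + 1) ≤ ((2 * c.i : ℕ) : ℝ) + 1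
        push_cast; exact h
    · right
      refine ⟨?_, ?_, h3, h4⟩
      · show ((2 * c.i + 1 : ℕ) : ℝ) ≤ a * 2 ^ (c.qa + 1)
        push_cast; exact h
      · show a * 2 ^ (c.qa + 1) ≤ ((2 * c.i + 1 : ℕ) : ℝ) + 1
        push_cast; rw [pow_succ]; linarith

theorem BoxAll.ucut {B : PB} (d : Bool) (h1 : BoxAll P (c.lo d) B) (h2 : BoxAll P (c.hi d) B) :
    BoxAll P c B := by
  intro a b hab x y z hm
  rcases UC.halves' hab d with h | h
  · exact h1 a b h x y z hm
  · exact h2 a b h x y z hm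

theorem CellAll.ucut (d : Bool) (h1 : CellAll P (c.lo d)) (h2 : CellAll P (c.hi d)) :
    CellAll P c := BoxAll.ucut (B := rootP) d h1 h2

end

/-- a skeleton of cuts of boxes -/
inductive SK where
  | leaf : SK
  | cut : ℕ → SK → SK → SK

/-- the boxes of the leaves -/
def SK.boxes : SK → PB → List PB
  | SK.leaf, B => [B]
  | SK.cut k l r, B => SK.boxes l (B.lo k) ++ SK.boxes r (B.hi k)

theorem SK.glue {P : ℝ → ℝ → ℝ → ℝ → ℝ → ℝ → Prop} {c : UC} (s : SK) :
    ∀ B : PB, (∀ B' ∈ s.boxes B, BoxAll P c B') → BoxAll P c B := by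
  induction s with
  | leaf => intro B h; exact h B (by simp [SK.boxes])
  | cut k l r ihl ihr =>
    intro B h
    exact BoxAll.cut k (ihl _ fun B' hB' => h B' (by simp [SK.boxes, hB']))
      (ihr _ fun B' hB' => h B' (by simp [SK.boxes, hB']))

/-- lists of boxes -/
def AllB (P : ℝ → ℝ → ℝ → ℝ → ℝ → ℝ → Prop) (c : UC) (L : List PB) : Prop :=
  ∀ B ∈ L, BoxAll P c B

section
variable {P : ℝ → ℝ → ℝ → ℝ → ℝ → ℝ → Prop} {c : UC}

theorem AllB.nil : AllB P c [] := by
  intro c hc; cases hc

theorem AllB.cons {B : PB} {L : List PB} (h : BoxAll P c B) (hL : AllB P c L) :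
    AllB P c (B :: L) := by
  intro B' hB'
  rcases List.mem_cons.1 hB' with rfl | h'
  · exact h
  · exact hL _ h'

theorem AllB.append {L M : List PB} (h : AllB P c L) (hM : AllB P c M) : AllB P c (L ++ M) := by
  intro B hB
  rcases List.mem_append.1 hB with h' | h'
  · exact h _ h'
  · exact hM _ h'

/-- **one cell from the boxes of a skeleton** (`hL` by `decide` or `rfl`) -/
theorem CellAll.of_skel (s : SK) (L : List PB) (hL : s.boxes rootP = L) (h : AllB P c L) :
    CellAll P c :=
  s.glue rootP fun B hB => h B (hL ▸ hB)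

/-- a box from the boxes of a skeleton -/
theorem BoxAll.of_skel (s : SK) (B : PB) (L : List PB) (hL : s.boxes B = L) (h : AllB P c L) :
    BoxAll P c B :=
  s.glue B fun B' hB => h B' (hL ▸ hB)

end

/-- trees with named subtrees: the check of a cut from the checks of the halves -/
theorem pchk_cut {δ : Type} {ok : PB → δ → Bool} {k : ℕ} {l r : PT δ} {B : PB}
    (h1 : pchk ok l (B.lo k) = true) (h2 : pchk ok r (B.hi k) = true) :
    pchk ok (PT.cut k l r) B = true := by
  rw [pchk, h1, h2]; rfl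

end Pool.Agent.Helper6.TOP
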