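import Pool.Agent.Helper10.TOP.PF
import Pool.Agent.Helper80.CW.DM

/-!
# Project TOP: from lists of monomials to tables

`tabK`: a list of monomials as one Horner tree in the six variables `u0 u1 u2 p0 p1 p2`, by
insertion (continuation passing, so that the kernel evaluates strictly). Operations on trees and
the comparison with literal tables in the form of `Helper10.PC.valZ`.
-/

set_option autoImplicit false
set_option linter.all false

namespace Pool.Agent.Helper6.TOP

open Helper10.PC hiding V3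
open Helper80.CW.DL

/-- the six variables -/
def sq (u p : V3) : ℕ → ℝ
  | 0 => u.1
  | 1 => u.2.1
  | 2 => u.2.2
  | 3 => p.1
  | 4 => p.2.1
  | 5 => p.2.2
  | _ => 0

/-- the three variables `p` -/
def pfv (p : V3) : ℕ → ℝ
  | 0 => p.1
  | 1 => p.2.1
  | 2 => p.2.2
  | _ => 0

/-! ### insertion -/

/-- insertion at the exponent `n` of the outermost variable -/
def insN (k : T ℤ → T ℤ) : ℕ → T ℤ → T ℤ
  | 0, T.c m => T.h (k (T.c m)) (T.c 0)
  | 0, T.h a b => T.h (k a) b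
  | n + 1, T.c m => T.h (T.c m) (insN k n (T.c 0))
  | n + 1, T.h a b => T.h a (insN k n b)

/-- addition of a constant -/
def ins0 (c : ℤ) : T ℤ → T ℤ
  | T.c m => T.c (Int.add c m)
  | T.h a b => T.h (ins0 c a) b

theorem ev_ins0 (c : ℤ) : ∀ (t : T ℤ) (x : ℕ → ℝ), evZ (ins0 c t) x = evZ t x + c
  | T.c m, x => by
    show ((Int.add c m : ℤ) : ℝ) = (m : ℝ) + c
    have : Int.add c m = c + m := rfl
    rw [this]; push_cast; ring
  | T.h a b, x => by
    show evZ (ins0 c a) _ + x 0 * evZ b x = (evZ a _ + x 0 * evZ b x) + c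
    rw [ev_ins0 c a]; ring

theorem ev_insN {k : T ℤ → T ℤ} {x : ℕ → ℝ} {δ : ℝ}
    (hk : ∀ t, evZ (k t) (fun i => x (i + 1)) = evZ t (fun i => x (i + 1)) + δ) :
    ∀ (n : ℕ) (t : T ℤ), evZ (insN k n t) x = evZ t x + x 0 ^ n * δ
  | 0, T.c m => by
    show evZ (k (T.c m)) _ + x 0 * evZ (T.c 0) x = evZ (T.c m) x + _
    rw [hk]
    simp [evZ, evT]
  | 0, T.h a b => by
    show evZ (k a) _ + x 0 * evZ b x = (evZ a _ + x 0 * evZ b x) + _
    rw [hk]; ring
  | n + 1, T.c m => by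
    show evZ (T.c m) _ + x 0 * evZ (insN k n (T.c 0)) x = evZ (T.c m) x + _
    rw [ev_insN hk n]
    simp only [evZ, evT]
    push_cast
    ring
  | n + 1, T.h a b => by
    show evZ a _ + x 0 * evZ (insN k n b) x = (evZ a _ + x 0 * evZ b x) + _
    rw [ev_insN hk n]
    ring

/-- insertion of a monomial -/
def insM (m : Mo) : T ℤ → T ℤ :=
  insN (insN (insN (insN (insN (insN (ins0 m.1) m.2.2.2.2) m.2.2.2.1) m.2.2.1) m.2.1.2.2)
    m.2.1.2.1) m.2.1.1

theorem ev_insM (m : Mo) (t : T ℤ) (u p : V3) : evZ (insM m t) (sq u p) = evZ t (sq u p) + vm m u p := by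
  unfold insM
  have h0 : ∀ t, evZ (ins0 m.1 t) (fun i => sq u p (i + 6)) =
      evZ t (fun i => sq u p (i + 6)) + m.1 := fun t => ev_ins0 _ _ _
  have h1 := ev_insN (x := fun i => sq u p (i + 5)) h0 m.2.2.2.2
  have h2 := ev_insN (x := fun i => sq u p (i + 4)) h1 m.2.2.2.1
  have h3 := ev_insN (x := fun i => sq u p (i + 3)) h2 m.2.2.1
  have h4 := ev_insN (x := fun i => sq u p (i + 2)) h3 m.2.1.2.2
  have h5 := ev_insN (x := fun i => sq u p (i + 1)) h4 m.2.1.2.1
  rw [ev_insN (x := sq u p) h5 m.2.1.1]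
  simp only [sq, vm]
  ring

/-- the table of a list, added to `t` -/
def tabD : List Mo → T ℤ → T ℤ
  | [], t => t
  | m :: l, t => tabD l (insM m t)

theorem ev_tabD (u p : V3) : ∀ (l : List Mo) (t : T ℤ),
    evZ (tabD l t) (sq u p) = evZ t (sq u p) + vl l u p
  | [], t => by simp [tabD, vl]
  | m :: l, t => by
    rw [tabD, ev_tabD u p l, ev_insM, vl_cons]; ring

/-! ### the same with continuations -/

/-- evaluates an integer -/
def frc (z : ℤ) (r : ℤ → Bool) : Bool :=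
  @Int.casesOn (fun _ => Bool) z
    (fun n => @Nat.casesOn (fun _ => Bool) n (r 0) (fun n => r (Int.ofNat (Nat.succ n))))
    (fun n => @Nat.casesOn (fun _ => Bool) n (r (Int.negSucc 0)) (fun n => r (Int.negSucc (Nat.succ n))))

theorem frc_eq (z : ℤ) (r : ℤ → Bool) : frc z r = r z := by
  rcases z with n | n
  · cases n <;> rfl
  · cases n <;> rfl

def insNK (k : T ℤ → (T ℤ → Bool) → Bool) (n : ℕ) : T ℤ → (T ℤ → Bool) → Bool :=
  @Nat.rec (fun _ => T ℤ → (T ℤ → Bool) → Bool)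
    (fun t r => @T.casesOn ℤ (fun _ => Bool) t (fun m => k (T.c m) fun a => r (T.h a (T.c 0)))
      (fun a b => k a fun a => r (T.h a b)))
    (fun _ ih t r => @T.casesOn ℤ (fun _ => Bool) t (fun m => ih (T.c 0) fun b => r (T.h (T.c m) b))
      (fun a b => ih b fun b => r (T.h a b))) n

theorem insNK_eq {k : T ℤ → (T ℤ → Bool) → Bool} {k' : T ℤ → T ℤ} (h : ∀ t r, k t r = r (k' t)) :
    ∀ (n : ℕ) (t : T ℤ) (r : T ℤ → Bool), insNK k n t r = r (insN k' n t)
  | 0, T.c m, r => h _ _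
  | 0, T.h a b, r => h _ _
  | n + 1, T.c m, r => insNK_eq h n _ _
  | n + 1, T.h a b, r => insNK_eq h n _ _

def ins0K (c : ℤ) (t : T ℤ) (r : T ℤ → Bool) : Bool :=
  @T.casesOn ℤ (fun _ => Bool) t (fun m => frc (Int.add c m) fun z => r (T.c z))
    (fun a b => r (T.h (ins0 c a) b))

theorem ins0K_eq (c : ℤ) (t : T ℤ) (r : T ℤ → Bool) : ins0K c t r = r (ins0 c t) := by
  cases t with
  | c m => exact frc_eq (Int.add c m) (fun z => r (T.c z))
  | h a b => rfl

def insMK (m : Mo) : T ℤ → (T ℤ → Bool) → Bool :=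
  insNK (insNK (insNK (insNK (insNK (insNK (ins0K m.1) m.2.2.2.2) m.2.2.2.1) m.2.2.1) m.2.1.2.2)
    m.2.1.2.1) m.2.1.1

theorem insMK_eq (m : Mo) : ∀ (t : T ℤ) (r : T ℤ → Bool), insMK m t r = r (insM m t) :=
  insNK_eq (insNK_eq (insNK_eq (insNK_eq (insNK_eq (insNK_eq (ins0K_eq m.1) _) _) _) _) _) _

/-- the table of a list -/
def tabK (l : List Mo) : T ℤ → (T ℤ → Bool) → Bool :=
  @List.rec Mo (fun _ => T ℤ → (T ℤ → Bool) → Bool) (fun t r => r t)
    (fun m _ ih t r => insMK m t fun t => ih t r) l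

theorem tabK_eq : ∀ (l : List Mo) (t : T ℤ) (r : T ℤ → Bool), tabK l t r = r (tabD l t)
  | [], t, r => rfl
  | m :: l, t, r => by
    show insMK m t (fun t => tabK l t r) = _
    rw [insMK_eq]
    exact tabK_eq l _ r

/-! ### comparison of trees -/

/-- all coefficients are zero -/
def allz : T ℤ → Bool
  | T.c m => Nat.beq (Int.natAbs m) 0
  | T.h a b => cond (allz a) (allz b) false

theorem allz_ev : ∀ {t : T ℤ}, allz t = true → ∀ x, evZ t x = 0
  | T.c m, h, x => by
    have h1 : Int.natAbs m = 0 := Nat.eq_of_beq_eq_true h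
    have : m = 0 := Int.natAbs_eq_zero.1 h1
    subst this
    simp [evZ, evT]
  | T.h a b, h, x => by
    have h1 := cond_ff h
    show evZ a _ + x 0 * evZ b x = 0
    rw [allz_ev h1.1, allz_ev h1.2]
    ring

/-- equality of integers -/
def zeq (a b : ℤ) : Bool :=
  @Int.casesOn (fun _ => Bool) a
    (fun n => @Int.casesOn (fun _ => Bool) b (fun m => Nat.beq n m) (fun _ => false))
    (fun n => @Int.casesOn (fun _ => Bool) b (fun _ => false) (fun m => Nat.beq n m))

theorem zeq_sound {a b : ℤ} (h : zeq a b = true) : a = b := by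
  rcases a with n | n <;> rcases b with m | m
  · exact congrArg _ (Nat.eq_of_beq_eq_true h)
  · exact absurd h Bool.false_ne_true
  · exact absurd h Bool.false_ne_true
  · exact congrArg _ (Nat.eq_of_beq_eq_true h)

/-- equality with a constant -/
def teqc (m : ℤ) : T ℤ → Bool
  | T.c n => zeq m n
  | T.h a b => cond (teqc m a) (allz b) false

theorem teqc_ev {m : ℤ} : ∀ {t : T ℤ}, teqc m t = true → ∀ x, (m : ℝ) = evZ t x
  | T.c n, h, x => by
    rw [zeq_sound (show zeq m n = true from h)]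
    rfl
  | T.h a b, h, x => by
    have h1 := cond_ff h
    show (m : ℝ) = evZ a _ + x 0 * evZ b x
    rw [← teqc_ev h1.1, allz_ev h1.2]
    ring

/-- equality of polynomials -/
def teq : T ℤ → T ℤ → Bool
  | T.c m => teqc m
  | T.h a b => fun t => match t with
    | T.c n => cond (teq a (T.c n)) (allz b) false
    | T.h a' b' => cond (teq a a') (teq b b') false

theorem teq_ev : ∀ (t t' : T ℤ), teq t t' = true → ∀ x, evZ t x = evZ t' x
  | T.c m, t', h, x => teqc_ev h x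
  | T.h a b, T.c n, h, x => by
    have h1 := cond_ff h
    show evZ a _ + x 0 * evZ b x = evZ (T.c n) x
    rw [teq_ev a (T.c n) h1.1, allz_ev h1.2]
    simp [evZ, evT]
  | T.h a b, T.h a' b', h, x => by
    have h1 := cond_ff h
    show evZ a _ + x 0 * evZ b x = evZ a' _ + x 0 * evZ b' x
    rw [teq_ev a a' h1.1, teq_ev b b' h1.2]

/-! ### comparison with a scaled polynomial: `2 ^ (μ n) t (p) = t' (2 ^ μ p)` -/

def teqsc (μ n : ℕ) (m : ℤ) : T ℤ → Bool
  | T.c m' => zeq (Int.mul (Int.ofNat (Nat.pow 2 (Nat.mul μ n))) m) m'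
  | T.h a b => cond (teqsc μ n m a) (allz b) false

theorem teqsc_ev {μ n : ℕ} {m : ℤ} : ∀ {t : T ℤ}, teqsc μ n m t = true → ∀ x,
    (2 : ℝ) ^ (μ * n) * m = evZ t x
  | T.c m', h, x => by
    have h1 := zeq_sound (show zeq (Int.mul (Int.ofNat (Nat.pow 2 (Nat.mul μ n))) m) m' = true from h)
    have h2 : m' = ((2 ^ (μ * n) : ℕ) : ℤ) * m := h1.symm
    show _ = (m' : ℝ)
    rw [h2]
    push_cast
    rfl
  | T.h a b, h, x => by
    have h1 := cond_ff h
    show _ = evZ a _ + x 0 * evZ b x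
    rw [← teqsc_ev h1.1, allz_ev h1.2]
    ring

def teqs (μ : ℕ) : T ℤ → ℕ → T ℤ → Bool
  | T.c m => fun n => teqsc μ n m
  | T.h a b => fun n t => match t with
    | T.c m' => cond (teqs μ a n (T.c m')) (allz b) false
    | T.h a' b' => cond (teqs μ a n a') (match n with
      | 0 => cond (allz b) (allz b') false
      | n + 1 => teqs μ b n b') false

theorem teqs_ev {μ : ℕ} : ∀ (t : T ℤ) (n : ℕ) (t' : T ℤ), teqs μ t n t' = true → ∀ x : ℕ → ℝ,
    (2 : ℝ) ^ (μ * n) * evZ t x = evZ t' (fun i => (2 : ℝ) ^ μ * x i)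
  | T.c m, n, t', h, x => teqsc_ev h _
  | T.h a b, n, T.c m', h, x => by
    have h1 := cond_ff h
    show _ * (evZ a _ + x 0 * evZ b x) = _
    rw [allz_ev h1.2, mul_zero, add_zero, teqs_ev a n (T.c m') h1.1]
    rfl
  | T.h a b, 0, T.h a' b', h, x => by
    have h1 := cond_ff h
    have h2 := cond_ff h1.2
    have h3 := teqs_ev a 0 a' h1.1 (fun i => x (i + 1))
    show (2 : ℝ) ^ (μ * 0) * (evZ a (fun i => x (i + 1)) + x 0 * evZ b x) =
      evZ a' (fun i => (2 : ℝ) ^ μ * x (i + 1)) + (2 : ℝ) ^ μ * x 0 * evZ b' _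
    rw [allz_ev h2.1, allz_ev h2.2, ← h3]
    ring
  | T.h a b, n + 1, T.h a' b', h, x => by
    have h1 := cond_ff h
    have h3 := teqs_ev a (n + 1) a' h1.1 (fun i => x (i + 1))
    have h4 := teqs_ev b n b' h1.2 x
    show (2 : ℝ) ^ (μ * (n + 1)) * (evZ a (fun i => x (i + 1)) + x 0 * evZ b x) =
      evZ a' (fun i => (2 : ℝ) ^ μ * x (i + 1)) + (2 : ℝ) ^ μ * x 0 * evZ b' (fun i => (2 : ℝ) ^ μ * x i)
    have h5 : (2 : ℝ) ^ (μ * (n + 1)) = 2 ^ (μ * n) * 2 ^ μ := by rw [Nat.mul_succ, pow_add]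
    rw [← h3, ← h4, h5]
    ring

end Pool.Agent.Helper6.TOP
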