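import Pool.Agent.Helper6.TOP.Cov2
import Pool.Agent.Helper80.CW.DJ

/-!
# Project TOP: the cells of a certificate of form S

`PSc`, `PPc`, `PMc`, `PAc`: the statements of a cell. `cell_of3`: one cell from its three trees.
`affS_root`: nothing outside of the root box. `affS_all`: from the cells to the chamber.
-/

set_option autoImplicit false
set_option linter.all false

namespace Pool.Agent.Helper6.TOP

open Helper80.CW.DL

/-- the matrix condition -/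
def PSc (c : Ct2) (u0 u1 u2 x y z : ℝ) : Prop := c.AffZ (u0, u1, u2) (x, y, z)
/-- the condition `+` -/
def PPc (c : Ct2) (u0 u1 u2 x y z : ℝ) : Prop := c.AffP (u0, u1, u2) (x, y, z)
/-- the condition `-` -/
def PMc (c : Ct2) (u0 u1 u2 x y z : ℝ) : Prop := c.AffM (u0, u1, u2) (x, y, z)
/-- all conditions -/
def PAc (c : Ct2) (u0 u1 u2 x y z : ℝ) : Prop := c.AffS (u0, u1, u2) (x, y, z)

/-- one cell from its three trees -/
theorem cell_of3 {c : Ct2} {U : UC} (h1 : CellAll (PSc c) U) (h2 : CellAll (PPc c) U)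
    (h3 : CellAll (PMc c) U) : CellAll (PAc c) U := fun a b hab x y z hm =>
  c.affS_of (h2 a b hab x y z hm) (h3 a b hab x y z hm) (h1 a b hab x y z hm)

/-- the same on a box -/
theorem box_of3 {c : Ct2} {U : UC} {B : PB} (h1 : BoxAll (PSc c) U B) (h2 : BoxAll (PPc c) U B)
    (h3 : BoxAll (PMc c) U B) : BoxAll (PAc c) U B := fun a b hab x y z hm =>
  c.affS_of (h2 a b hab x y z hm) (h3 a b hab x y z hm) (h1 a b hab x y z hm)

/-- the cap gives the root box -/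
def rootOK (c : Ct2) : Bool :=
  decide (0 < c.K) && decide (0 < c.rd) && decide (64 * c.k3 ≤ 25 * (16 * c.K * c.rd))

theorem hy_root {c : Ct2} (hk : rootOK c = true) {u p : V3} {Q : Prop}
    (hu : u.1 ^ 2 + u.2.1 ^ 2 + u.2.2 ^ 2 = 1) (hn : ¬ rootP.mem p.1 p.2.1 p.2.2) :
    c.Hy u p Q := by
  simp only [rootOK, Bool.and_eq_true, decide_eq_true_eq] at hk
  obtain ⟨⟨hK, hr⟩, h3⟩ := hk
  have hK' : (0 : ℝ) < c.K := by exact_mod_cast hK
  have hr' : (0 : ℝ) < c.rd := by exact_mod_cast hr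
  have h3' : (64 : ℝ) * c.k3 ≤ 25 * (16 * c.K * c.rd) := by exact_mod_cast h3
  intro θ _ _ _ hcap
  exfalso
  apply hn
  have hd : (c.ct.den : ℝ) = 16 * c.K * c.rd := by
    simp only [Ct.den, Ct2.ct]
    push_cast
    ring
  have hk3 : (c.ct.k3 : ℝ) = c.k3 := rfl
  have h1 := hcap false
  have h2 := hcap true
  rw [c.ct.vl_capL _ (by exact hu), hd, hk3] at h1 h2
  simp only [n2, qe] at h1 h2
  set D : ℝ := 16 * c.K * c.rd with hD
  have hD0 : 0 < D := by positivity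
  have h4 : D * (p.1 ^ 2 + p.2.1 ^ 2 + p.2.2 ^ 2) ≤ D * (9 / 64) := by nlinarith
  have h5 : p.1 ^ 2 + p.2.1 ^ 2 + p.2.2 ^ 2 ≤ 9 / 64 := le_of_mul_le_mul_left h4 hD0
  refine rootP_mem ?_ ?_ ?_ <;> refine abs_le_of_sq_le_sq' ?_ (by norm_num) |> abs_le.2 <;>
    nlinarith [sq_nonneg p.1, sq_nonneg p.2.1, sq_nonneg p.2.2]

/-- **from the cells to the chamber** -/
theorem affS_all {c : Ct2} (hr : rootOK c = true) (T : UT) (L : List UC)
    (h : T.ok rootU = true) (hL : T.leaves rootU = L) (hl : AllC (PAc c) L) (u p : V3)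
    (hu : u.1 ^ 2 + u.2.1 ^ 2 + u.2.2 ^ 2 = 1) (h3 : 0 ≤ u.2.2) (h2 : u.2.2 ≤ u.2.1)
    (h1 : u.2.1 ≤ u.1) : c.AffS u p := by
  have hroot : ∀ u0 u1 u2 x y z : ℝ, u0 ^ 2 + u1 ^ 2 + u2 ^ 2 = 1 → ¬ rootP.mem x y z →
      PAc c u0 u1 u2 x y z := fun u0 u1 u2 x y z hu hn =>
    hy_root hr (u := (u0, u1, u2)) (p := (x, y, z)) hu hn
  obtain ⟨u0, u1, u2⟩ := u
  obtain ⟨x, y, z⟩ := p
  exact UT.assemble_list T L h hL hroot hl u0 u1 u2 x y z hu h3 h2 h1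

/-- **the same with three covers** -/
theorem affS_all3 {c : Ct2} (hr : rootOK c = true) (T T' T'' : UT) (L L' L'' : List UC)
    (h : T.ok rootU = true) (hL : T.leaves rootU = L) (hl : AllC (PSc c) L)
    (h' : T'.ok rootU = true) (hL' : T'.leaves rootU = L') (hl' : AllC (PPc c) L')
    (h'' : T''.ok rootU = true) (hL'' : T''.leaves rootU = L'') (hl'' : AllC (PMc c) L'')
    (u p : V3) (hu : u.1 ^ 2 + u.2.1 ^ 2 + u.2.2 ^ 2 = 1) (h3 : 0 ≤ u.2.2) (h2 : u.2.2 ≤ u.2.1)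
    (h1 : u.2.1 ≤ u.1) : c.AffS u p := by
  have hS : ∀ u0 u1 u2 x y z : ℝ, u0 ^ 2 + u1 ^ 2 + u2 ^ 2 = 1 → ¬ rootP.mem x y z →
      PSc c u0 u1 u2 x y z := fun u0 u1 u2 x y z hu hn =>
    hy_root hr (u := (u0, u1, u2)) (p := (x, y, z)) hu hn
  have hP : ∀ u0 u1 u2 x y z : ℝ, u0 ^ 2 + u1 ^ 2 + u2 ^ 2 = 1 → ¬ rootP.mem x y z →
      PPc c u0 u1 u2 x y z := fun u0 u1 u2 x y z hu hn =>
    hy_root hr (u := (u0, u1, u2)) (p := (x, y, z)) hu hn
  have hM : ∀ u0 u1 u2 x y z : ℝ, u0 ^ 2 + u1 ^ 2 + u2 ^ 2 = 1 → ¬ rootP.mem x y z →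
      PMc c u0 u1 u2 x y z := fun u0 u1 u2 x y z hu hn =>
    hy_root hr (u := (u0, u1, u2)) (p := (x, y, z)) hu hn
  obtain ⟨u0, u1, u2⟩ := u
  obtain ⟨x, y, z⟩ := p
  exact c.affS_of (UT.assemble_list T' L' h' hL' hP hl' u0 u1 u2 x y z hu h3 h2 h1)
    (UT.assemble_list T'' L'' h'' hL'' hM hl'' u0 u1 u2 x y z hu h3 h2 h1)
    (UT.assemble_list T L h hL hS hl u0 u1 u2 x y z hu h3 h2 h1)

end Pool.Agent.Helper6.TOP
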