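import Pool.Agent.Helper6.TOP.Br
import Pool.Agent.Helper80.CW.DJ

/-!
# Project TOP: the five tables of a certificate

`Bas`: the nine base tables of a certificate. `bQp`, `bQm`, `bP11`, `bP12`, `bP22`: the five lists of
`Helper80.CW.DL.Ct2` in the form `Helper10.PC.valZ` with literal tables.
-/

set_option autoImplicit false
set_option linter.all false

namespace Pool.Agent.Helper6.TOP

open Helper10.PC hiding V3
open Helper80.CW.DL Helper29.TOP

/-! ### operations on trees -/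

def mv0 (t : T ℤ) : T ℤ := T.h (T.c 0) t

def mv1 : T ℤ → T ℤ
  | T.c m => T.h (T.h (T.c 0) (T.c m)) (T.c 0)
  | T.h a b => T.h (T.h (T.c 0) a) (mv1 b)

def mv2 : T ℤ → T ℤ
  | T.c m => T.h (T.h (T.h (T.c 0) (T.c m)) (T.c 0)) (T.c 0)
  | T.h a b => T.h (mv1 a) (mv2 b)

theorem ev_mv0 (t : T ℤ) (x : ℕ → ℝ) : evZ (mv0 t) x = x 0 * evZ t x := by
  show evZ (T.c 0) _ + x 0 * evZ t x = _
  simp [evZ, evT]

theorem ev_mv1 : ∀ (t : T ℤ) (x : ℕ → ℝ), evZ (mv1 t) x = x 1 * evZ t x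
  | T.c m, x => by simp [mv1, evZ, evT]
  | T.h a b, x => by
    show (evZ (T.c 0) _ + x 1 * evZ a _) + x 0 * evZ (mv1 b) x = x 1 * (evZ a _ + x 0 * evZ b x)
    rw [ev_mv1 b]
    simp only [evZ, evT]
    push_cast
    ring

theorem ev_mv2 : ∀ (t : T ℤ) (x : ℕ → ℝ), evZ (mv2 t) x = x 2 * evZ t x
  | T.c m, x => by simp [mv2, evZ, evT]
  | T.h a b, x => by
    show evZ (mv1 a) _ + x 0 * evZ (mv2 b) x = x 2 * (evZ a _ + x 0 * evZ b x)
    rw [ev_mv2 b, ev_mv1 a]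
    ring

def smT (c : ℤ) : T ℤ → T ℤ
  | T.c m => T.c (Int.mul c m)
  | T.h a b => T.h (smT c a) (smT c b)

theorem ev_smT (c : ℤ) : ∀ (t : T ℤ) (x : ℕ → ℝ), evZ (smT c t) x = c * evZ t x
  | T.c m, x => by
    show ((Int.mul c m : ℤ) : ℝ) = c * (m : ℝ)
    have : Int.mul c m = c * m := rfl
    rw [this]; push_cast; ring
  | T.h a b, x => by
    show evZ (smT c a) _ + x 0 * evZ (smT c b) x = c * (evZ a _ + x 0 * evZ b x)
    rw [ev_smT c a, ev_smT c b]
    ring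

theorem ev_adT (a b : T ℤ) (x : ℕ → ℝ) : evZ (addT Int.add a b) x = evZ a x + evZ b x :=
  ev_addT (φ := fun n : ℤ => (n : ℝ)) (ad := Int.add) (fun a b => by
    have : Int.add a b = a + b := rfl
    rw [this]; push_cast; rfl) a b x

/-- expressions -/
inductive E where
  | t : T ℤ → E
  | k : ℤ → E
  | add : E → E → E
  | sm : ℤ → E → E
  | m0 : E → E
  | m1 : E → E
  | m2 : E → E

def E.tab : E → T ℤ
  | E.t x => x
  | E.k c => T.c c
  | E.add a b => addT Int.add a.tab b.tab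
  | E.sm c a => smT c a.tab
  | E.m0 a => mv0 a.tab
  | E.m1 a => mv1 a.tab
  | E.m2 a => mv2 a.tab

noncomputable def E.val (u p : V3) : E → ℝ
  | E.t x => evZ x (sq u p)
  | E.k c => c
  | E.add a b => a.val u p + b.val u p
  | E.sm c a => c * a.val u p
  | E.m0 a => u.1 * a.val u p
  | E.m1 a => u.2.1 * a.val u p
  | E.m2 a => u.2.2 * a.val u p

theorem E.tab_ev (u p : V3) : ∀ e : E, evZ e.tab (sq u p) = e.val u p
  | E.t x => rfl
  | E.k c => rfl
  | E.add a b => by rw [E.tab, ev_adT, E.tab_ev u p a, E.tab_ev u p b]; rfl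
  | E.sm c a => by rw [E.tab, ev_smT, E.tab_ev u p a]; rfl
  | E.m0 a => by rw [E.tab, ev_mv0, E.tab_ev u p a]; rfl
  | E.m1 a => by rw [E.tab, ev_mv1, E.tab_ev u p a]; rfl
  | E.m2 a => by rw [E.tab, ev_mv2, E.tab_ev u p a]; rfl

/-! ### from the tree to the table -/

def fl2 (i j : ℕ) : ℕ → T ℤ → List (Al × T ℤ)
  | k, T.c m => [((i, j, k), T.c m)]
  | k, T.h a b => ((i, j, k), a) :: fl2 i j (Nat.succ k) b

def fl1 (i : ℕ) : ℕ → T ℤ → List (Al × T ℤ)
  | j, T.c m => fl2 i j 0 (T.c m)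
  | j, T.h a b => fl2 i j 0 a ++ fl1 i (Nat.succ j) b

def fl0 : ℕ → T ℤ → List (Al × T ℤ)
  | i, T.c m => fl1 i 0 (T.c m)
  | i, T.h a b => fl1 i 0 a ++ fl0 (Nat.succ i) b

noncomputable def sumF (x y z : ℝ) (p : ℕ → ℝ) : List (Al × T ℤ) → ℝ
  | [] => 0
  | (a, t) :: L => monU a x y z * evZ t p + sumF x y z p L

theorem sumF_append (x y z : ℝ) (p : ℕ → ℝ) : ∀ L M : List (Al × T ℤ),
    sumF x y z p (L ++ M) = sumF x y z p L + sumF x y z p M
  | [], M => by simp [sumF]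
  | (a, t) :: L, M => by
    simp only [List.cons_append, sumF, sumF_append x y z p L M]; ring

theorem fl2_ev (x y z : ℝ) (w : ℕ → ℝ) (hw : w 0 = z) (i j : ℕ) : ∀ (t : T ℤ) (k : ℕ),
    sumF x y z (fun n => w (n + 1)) (fl2 i j k t) = x ^ i * y ^ j * (z ^ k * evZ t w)
  | T.c m, k => by
    simp only [fl2, sumF, monU]
    have e1 : evZ (T.c m) (fun n => w (n + 1)) = evZ (T.c m) w := rfl
    rw [e1]
    ring
  | T.h a b, k => by
    simp only [fl2, sumF, monU]
    rw [fl2_ev x y z w hw i j b (Nat.succ k)]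
    have e : evZ (T.h a b) w = evZ a (fun n => w (n + 1)) + z * evZ b w := by rw [← hw]; rfl
    rw [e, pow_succ]
    ring

theorem fl1_ev (x y z : ℝ) (w : ℕ → ℝ) (h0 : w 0 = y) (h1 : w 1 = z) (i : ℕ) :
    ∀ (t : T ℤ) (j : ℕ),
    sumF x y z (fun n => w (n + 2)) (fl1 i j t) = x ^ i * (y ^ j * evZ t w)
  | T.c m, j => by
    have := fl2_ev x y z (fun n => w (n + 1)) h1 i j (T.c m) 0
    simp only [fl1]
    rw [this]
    have e1 : evZ (T.c m) (fun n => w (n + 1)) = evZ (T.c m) w := rfl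
    rw [e1]
    ring
  | T.h a b, j => by
    have := fl2_ev x y z (fun n => w (n + 1)) h1 i j a 0
    simp only [fl1, sumF_append]
    rw [this, fl1_ev x y z w h0 h1 i b (Nat.succ j)]
    have e : evZ (T.h a b) w = evZ a (fun n => w (n + 1)) + y * evZ b w := by rw [← h0]; rfl
    rw [e, pow_succ]
    ring

theorem fl0_ev (x y z : ℝ) (w : ℕ → ℝ) (h0 : w 0 = x) (h1 : w 1 = y) (h2 : w 2 = z) :
    ∀ (t : T ℤ) (i : ℕ),
    sumF x y z (fun n => w (n + 3)) (fl0 i t) = x ^ i * evZ t w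
  | T.c m, i => by
    have := fl1_ev x y z (fun n => w (n + 1)) h1 h2 i (T.c m) 0
    simp only [fl0]
    rw [this]
    have e1 : evZ (T.c m) (fun n => w (n + 1)) = evZ (T.c m) w := rfl
    rw [e1]
    ring
  | T.h a b, i => by
    have := fl1_ev x y z (fun n => w (n + 1)) h1 h2 i a 0
    simp only [fl0, sumF_append]
    rw [this, fl0_ev x y z w h0 h1 h2 b (Nat.succ i)]
    have e : evZ (T.h a b) w = evZ a (fun n => w (n + 1)) + x * evZ b w := by rw [← h0]; rfl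
    rw [e, pow_succ]
    ring

/-! ### comparison with a literal table -/

def aeq (a b : Al) : Bool :=
  cond (Nat.beq a.1 b.1) (cond (Nat.beq a.2.1 b.2.1) (Nat.beq a.2.2 b.2.2) false) false

theorem aeq_sound {a b : Al} (h : aeq a b = true) : a = b := by
  have h1 := cond_ff h
  have h2 := cond_ff h1.2
  obtain ⟨a0, a1, a2⟩ := a
  obtain ⟨b0, b1, b2⟩ := b
  have e0 : a0 = b0 := Nat.eq_of_beq_eq_true h1.1
  have e1 : a1 = b1 := Nat.eq_of_beq_eq_true h2.1
  have e2 : a2 = b2 := Nat.eq_of_beq_eq_true h2.2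
  rw [e0, e1, e2]

/-- the literal table is `(α, t) :: rest` up to zeros; then `k rest` -/
def skp (μ n : ℕ) (α : Al) (t : T ℤ) (k : List Al → List (T ℤ) → Bool) :
    List Al → List (T ℤ) → Bool
  | a :: A, c :: C => cond (aeq a α) (cond (teqs μ t n c) (k A C) false)
      (cond (allz c) (skp μ n α t k A C) false)
  | _, _ => false

def allZ : List (T ℤ) → Bool
  | [] => true
  | c :: C => cond (allz c) (allZ C) false

/-- the comparison -/
def cmpL (μ n : ℕ) : List (Al × T ℤ) → List Al → List (T ℤ) → Bool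
  | [] => fun _ C => allZ C
  | (α, t) :: L => fun A C => cond (allz t) (cmpL μ n L A C) (skp μ n α t (cmpL μ n L) A C)

theorem allZ_val {x y z : ℝ} {p : ℕ → ℝ} : ∀ (A : List Al) (C : List (T ℤ)), allZ C = true →
    valZ A C x y z p = 0
  | [], C, h => by simp [valZ]
  | a :: A, [], h => by simp [valZ]
  | a :: A, c :: C, h => by
    have h1 := cond_ff h
    simp only [valZ, allz_ev h1.1, allZ_val A C h1.2]
    ring

theorem skp_val {μ n : ℕ} {x y z : ℝ} {p : ℕ → ℝ} {α : Al} {t : T ℤ}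
    {k : List Al → List (T ℤ) → Bool} {s : ℝ}
    (hk : ∀ A C, k A C = true → valZ A C x y z (fun i => (2 : ℝ) ^ μ * p i) = s) :
    ∀ (A : List Al) (C : List (T ℤ)), skp μ n α t k A C = true →
    valZ A C x y z (fun i => (2 : ℝ) ^ μ * p i) = monU α x y z * ((2 : ℝ) ^ (μ * n) * evZ t p) + s
  | [], C, h => by
    cases C <;> exact absurd h Bool.false_ne_true
  | a :: A, [], h => absurd h Bool.false_ne_true
  | a :: A, c :: C, h => by
    simp only [skp] at h
    cases ha : aeq a α with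
    | true =>
      rw [ha] at h
      have h1 := cond_ff h
      simp only [valZ]
      rw [aeq_sound ha, teqs_ev t n c h1.1, hk A C h1.2]
    | false =>
      rw [ha] at h
      have h1 := cond_ff h
      simp only [valZ]
      rw [allz_ev h1.1, skp_val hk A C h1.2]
      ring

theorem cmpL_val {μ n : ℕ} {x y z : ℝ} {p : ℕ → ℝ} : ∀ (L : List (Al × T ℤ)) (A : List Al)
    (C : List (T ℤ)), cmpL μ n L A C = true →
    valZ A C x y z (fun i => (2 : ℝ) ^ μ * p i) = (2 : ℝ) ^ (μ * n) * sumF x y z p L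
  | [], A, C, h => by rw [allZ_val A C h]; simp [sumF]
  | (α, t) :: L, A, C, h => by
    simp only [cmpL] at h
    cases hz : allz t with
    | true =>
      rw [hz] at h
      simp only [sumF, allz_ev hz]
      rw [cmpL_val L A C h]
      ring
    | false =>
      rw [hz] at h
      simp only [sumF]
      rw [skp_val (fun A C h => cmpL_val L A C h) A C h]
      ring

/-- **the comparison of an expression with a literal table**: the literal polynomials are in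
`2 ^ μ p`, everything times `2 ^ (μ n)` -/
def chkE (μ n : ℕ) (e : E) (A : List Al) (C : List (T ℤ)) : Bool := cmpL μ n (fl0 0 e.tab) A C

theorem chkE_sound {μ n : ℕ} {e : E} {A : List Al} {C : List (T ℤ)} (h : chkE μ n e A C = true)
    (u p : V3) :
    valZ A C u.1 u.2.1 u.2.2 (fun i => (2 : ℝ) ^ μ * pfv p i) = (2 : ℝ) ^ (μ * n) * e.val u p := by
  rw [cmpL_val _ _ _ h, ← E.tab_ev]
  have := fl0_ev u.1 u.2.1 u.2.2 (sq u p) rfl rfl rfl e.tab 0
  rw [pow_zero, one_mul] at this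
  rw [← this]
  congr 2
  funext n
  match n with
  | 0 => rfl
  | 1 => rfl
  | 2 => rfl
  | n + 3 => rfl

/-! ### abbreviations of the printer -/

/-- a seed with a nonnegative coefficient -/
def sP (t : Bool) (i : Fin 3) (a0 a1 a2 b0 b1 b2 c : ℕ) : Sd :=
  (t, i, (Int.ofNat c, (a0, a1, a2), (b0, b1, b2)))

/-- a seed with a negative coefficient `- (c + 1)` -/
def sM (t : Bool) (i : Fin 3) (a0 a1 a2 b0 b1 b2 c : ℕ) : Sd :=
  (t, i, (Int.negSucc c, (a0, a1, a2), (b0, b1, b2)))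

def P (n : ℕ) : T ℤ := T.c (Int.ofNat n)
def M (n : ℕ) : T ℤ := T.c (Int.negSucc n)

/-! ### the certificate -/

/-- check of a base table -/
def chkT (l : List Mo) (t : T ℤ) : Bool := tabK l (T.c 0) fun s => teq s t

theorem chkT_sound {l : List Mo} {t : T ℤ} (h : chkT l t = true) (u p : V3) :
    vl l u p = evZ t (sq u p) := by
  unfold chkT at h
  rw [tabK_eq] at h
  rw [← teq_ev _ _ h, ev_tabD]
  simp [evZ, evT]

/-- the base tables of a certificate -/
structure Bas (c : Ct2) (t0 t1 t2 n00 n11 n22 n01 n02 n12 : T ℤ) : Prop where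
  h0 : chkT (c.G g0) t0 = true
  h1 : chkT (c.G g1) t1 = true
  h2 : chkT (c.G g2) t2 = true
  h00 : chkT (c.Nn 0 0) n00 = true
  h11 : chkT (c.Nn 1 1) n11 = true
  h22 : chkT (c.Nn 2 2) n22 = true
  h01 : chkT (c.Nn 0 1 ++ c.Nn 1 0) n01 = true
  h02 : chkT (c.Nn 0 2 ++ c.Nn 2 0) n02 = true
  h12 : chkT (c.Nn 1 2 ++ c.Nn 2 1) n12 = true

/-- tangential trace -/
def eTN (n00 n11 n22 n01 n02 n12 : T ℤ) : E :=
  E.add (E.add (E.t n00) (E.add (E.t n11) (E.t n22)))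
    (E.sm (-1) (E.add (E.m0 (E.add (E.m0 (E.t n00)) (E.add (E.m1 (E.t n01)) (E.m2 (E.t n02)))))
      (E.add (E.m1 (E.add (E.m1 (E.t n11)) (E.m2 (E.t n12)))) (E.m2 (E.m2 (E.t n22))))))

def eQp (k : ℤ) (t0 t1 t2 : T ℤ) (tn : E) : E :=
  E.add (E.k k) (E.add (E.sm (-1) (E.t t2)) (E.add (E.sm (-4) (E.add (E.t t0) (E.t t1)))
    (E.sm (-2) tn)))

def eQm (k : ℤ) (t0 t1 t2 : T ℤ) (tn : E) : E :=
  E.add (E.k k) (E.add (E.sm (-1) (E.t t2)) (E.add (E.sm (-4) (E.t t0)) (E.add (E.sm 4 (E.t t1))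
    (E.sm 2 tn))))

def eQs (k : ℤ) (t0 t2 : T ℤ) (tn : E) : E :=
  E.add (E.k k) (E.add (E.t t2) (E.add (E.sm (-4) (E.t t0)) (E.sm 2 tn)))

def eP11 (q : E) (n00 n11 n01 : T ℤ) : E :=
  E.add (E.add (E.m0 (E.m0 q)) (E.m1 (E.m1 q)))
    (E.sm (-4) (E.add (E.m1 (E.m1 (E.t n00))) (E.add (E.sm (-1) (E.m0 (E.m1 (E.t n01))))
      (E.m0 (E.m0 (E.t n11))))))

def eP12 (q : E) (n00 n01 n02 n12 : T ℤ) : E :=
  E.add (E.m1 (E.m2 q)) (E.sm (-2) (E.add (E.sm 2 (E.m1 (E.m2 (E.t n00))))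
    (E.add (E.sm (-1) (E.m0 (E.m2 (E.t n01)))) (E.add (E.sm (-1) (E.m0 (E.m1 (E.t n02))))
      (E.m0 (E.m0 (E.t n12)))))))

def eP22 (q : E) (n00 n22 n02 : T ℤ) : E :=
  E.add (E.add (E.m0 (E.m0 q)) (E.m2 (E.m2 q)))
    (E.sm (-4) (E.add (E.m2 (E.m2 (E.t n00))) (E.add (E.sm (-1) (E.m0 (E.m2 (E.t n02))))
      (E.m0 (E.m0 (E.t n22))))))

section
variable {c : Ct2} {t0 t1 t2 n00 n11 n22 n01 n02 n12 : T ℤ}

theorem Bas.tn (h : Bas c t0 t1 t2 n00 n11 n22 n01 n02 n12) (u p : V3) :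
    vl c.TN u p = (eTN n00 n11 n22 n01 n02 n12).val u p := by
  have e00 := chkT_sound h.h00 u p
  have e11 := chkT_sound h.h11 u p
  have e22 := chkT_sound h.h22 u p
  have e01 := chkT_sound h.h01 u p
  have e02 := chkT_sound h.h02 u p
  have e12 := chkT_sound h.h12 u p
  rw [vl_append] at e01 e02 e12
  rw [c.vl_TN]
  simp only [Fin.sum_univ_three, cv, eTN, E.val, ← e00, ← e11, ← e22, ← e01, ← e02, ← e12]
  push_cast
  ring

theorem Bas.qp (h : Bas c t0 t1 t2 n00 n11 n22 n01 n02 n12) (u p : V3) :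
    vl c.Qp u p = (eQp (Int.add c.M c.N) t0 t1 t2 (eTN n00 n11 n22 n01 n02 n12)).val u p := by
  have e0 := chkT_sound h.h0 u p
  have e1 := chkT_sound h.h1 u p
  have e2 := chkT_sound h.h2 u p
  have ek : ((Int.add c.M c.N : ℤ) : ℝ) = c.M + c.N := by
    have : Int.add c.M c.N = c.M + c.N := rfl
    rw [this]; push_cast; rfl
  simp only [Ct2.Qp, vl_cons, vl_append, vl_sc, vm_cst, h.tn, eQp, E.val, ← e0, ← e1, ← e2, ek]
  push_cast
  ring

theorem Bas.qm (h : Bas c t0 t1 t2 n00 n11 n22 n01 n02 n12) (u p : V3) :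
    vl c.Qm u p = (eQm (Int.add c.M c.N) t0 t1 t2 (eTN n00 n11 n22 n01 n02 n12)).val u p := by
  have e0 := chkT_sound h.h0 u p
  have e1 := chkT_sound h.h1 u p
  have e2 := chkT_sound h.h2 u p
  have ek : ((Int.add c.M c.N : ℤ) : ℝ) = c.M + c.N := by
    have : Int.add c.M c.N = c.M + c.N := rfl
    rw [this]; push_cast; rfl
  simp only [Ct2.Qm, vl_cons, vl_append, vl_sc, vm_cst, h.tn, eQm, E.val, ← e0, ← e1, ← e2, ek]
  push_cast
  ring

theorem Bas.qs (h : Bas c t0 t1 t2 n00 n11 n22 n01 n02 n12) (u p : V3) :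
    vl c.Qs u p =
      (eQs (Int.add c.M (Int.mul (-1) c.N)) t0 t2 (eTN n00 n11 n22 n01 n02 n12)).val u p := by
  have e0 := chkT_sound h.h0 u p
  have e2 := chkT_sound h.h2 u p
  have ek : ((Int.add c.M (Int.mul (-1) c.N) : ℤ) : ℝ) = c.M - c.N := by
    have : Int.add c.M (Int.mul (-1) c.N) = c.M + (-1) * c.N := rfl
    rw [this]; push_cast; ring
  simp only [Ct2.Qs, vl_cons, vl_append, vl_sc, vm_cst, h.tn, eQs, E.val, ← e0, ← e2, ek]
  push_cast
  ring

theorem Bas.p11 (h : Bas c t0 t1 t2 n00 n11 n22 n01 n02 n12) (u p : V3) :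
    vl c.P11 u p = (eP11 (eQs (Int.add c.M (Int.mul (-1) c.N)) t0 t2
      (eTN n00 n11 n22 n01 n02 n12)) n00 n11 n01).val u p := by
  have e00 := chkT_sound h.h00 u p
  have e11 := chkT_sound h.h11 u p
  have e01 := chkT_sound h.h01 u p
  rw [vl_append] at e01
  unfold Ct2.P11
  rw [vl_pf11, h.qs]
  simp only [eP11, E.val, ← e00, ← e11, ← e01]
  push_cast
  ring

theorem Bas.p12 (h : Bas c t0 t1 t2 n00 n11 n22 n01 n02 n12) (u p : V3) :
    vl c.P12 u p = (eP12 (eQs (Int.add c.M (Int.mul (-1) c.N)) t0 t2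
      (eTN n00 n11 n22 n01 n02 n12)) n00 n01 n02 n12).val u p := by
  have e00 := chkT_sound h.h00 u p
  have e01 := chkT_sound h.h01 u p
  have e02 := chkT_sound h.h02 u p
  have e12 := chkT_sound h.h12 u p
  rw [vl_append] at e01 e02 e12
  unfold Ct2.P12
  rw [vl_pf12, h.qs]
  simp only [eP12, E.val, ← e00, ← e01, ← e02, ← e12]
  push_cast
  ring

theorem Bas.p22 (h : Bas c t0 t1 t2 n00 n11 n22 n01 n02 n12) (u p : V3) :
    vl c.P22 u p = (eP22 (eQs (Int.add c.M (Int.mul (-1) c.N)) t0 t2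
      (eTN n00 n11 n22 n01 n02 n12)) n00 n22 n02).val u p := by
  have e00 := chkT_sound h.h00 u p
  have e22 := chkT_sound h.h22 u p
  have e02 := chkT_sound h.h02 u p
  rw [vl_append] at e02
  unfold Ct2.P22
  rw [vl_pf22, h.qs]
  simp only [eP22, E.val, ← e00, ← e22, ← e02]
  push_cast
  ring

end

end Pool.Agent.Helper6.TOP
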