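import Pool.Agent.Helper80.CW.DD
import Pool.Agent.Helper6.TOP.Cov2

/-!
# Project TOP: the domain of a configuration and the cells

`dom_root`: the domain is in the root box. `dom_all`: from the cells to the chamber, in the form of
`Helper80.CW.DL`.
-/

set_option autoImplicit false
set_option linter.all false

namespace Pool.Agent.Helper6.TOP

open Helper80.CW.DL

/-- the domain is in the root box -/
theorem dom_root {T1 T2 r e1 e2 : ℝ} (he : e1 ≤ 1 / 100) {t : St → ℝ} {u p : V3}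
    (hu : u.1 ^ 2 + u.2.1 ^ 2 + u.2.2 ^ 2 = 1) (h : DomC T1 T2 r e1 e2 t u p) :
    rootP.mem p.1 p.2.1 p.2.2 := by
  have hT : 0 ≤ Tt t := by
    have := h.pos
    unfold Tt
    linarith [this (0, false), this (0, true), this (1, false), this (1, true), this (2, false),
      this (2, true)]
  have h1 := h.ball false
  have h2 := h.ball true
  simp only [n2, qe] at h1 h2
  have h3 : p.1 ^ 2 + p.2.1 ^ 2 + p.2.2 ^ 2 ≤ 1 / 8 + 1 / 100 := by nlinarith
  refine rootP_mem ?_ ?_ ?_ <;> refine abs_le_of_sq_le_sq' ?_ (by norm_num) |> abs_le.2 <;>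
    nlinarith [sq_nonneg p.1, sq_nonneg p.2.1, sq_nonneg p.2.2]

/-- the statement of a cell -/
def DomP (T1 T2 r e1 e2 : ℝ) (Good : V3 → V3 → Prop) (u0 u1 u2 x y z : ℝ) : Prop :=
  ∀ t : St → ℝ, DomC T1 T2 r e1 e2 t (u0, u1, u2) (x, y, z) → Good (u0, u1, u2) (x, y, z)

/-- **from the cells to the chamber** -/
theorem dom_all {T1 T2 r e1 e2 : ℝ} (he : e1 ≤ 1 / 100) {Good : V3 → V3 → Prop} (T : UT)
    (L : List UC) (h : T.ok rootU = true) (hL : T.leaves rootU = L)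
    (hl : AllC (DomP T1 T2 r e1 e2 Good) L) (t : St → ℝ) (u p : V3)
    (hu : u.1 ^ 2 + u.2.1 ^ 2 + u.2.2 ^ 2 = 1) (h3 : 0 ≤ u.2.2) (h2 : u.2.2 ≤ u.2.1)
    (h1 : u.2.1 ≤ u.1) (hd : DomC T1 T2 r e1 e2 t u p) : Good u p := by
  have hroot : ∀ u0 u1 u2 x y z : ℝ, u0 ^ 2 + u1 ^ 2 + u2 ^ 2 = 1 → ¬ rootP.mem x y z →
      DomP T1 T2 r e1 e2 Good u0 u1 u2 x y z := by
    intro u0 u1 u2 x y z hu hn t hd
    exact (hn (dom_root he (u := (u0, u1, u2)) (p := (x, y, z)) hu hd)).elim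
  obtain ⟨u0, u1, u2⟩ := u
  obtain ⟨x, y, z⟩ := p
  exact UT.assemble_list T L h hL hroot hl u0 u1 u2 x y z hu h3 h2 h1 t hd

end Pool.Agent.Helper6.TOP
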