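import Pool.Agent.Helper31.SR.FinT
import Pool.Agent.Helper73.FARP.VM

/-!
# Project TOP: the range of circumradii from the smooth bodies

`approx_two`: approximation by smooth bodies with both conditions on the circumradius.
`top_of_smooth`: `Top R0 R1` from a lower bound for the volume of the smooth bodies.
`vme_lt`: the number.
-/

set_option autoImplicit false
set_option linter.all false

namespace Pool.Agent.Helper6.TOP

open Set Metric Finset MeasureTheory Filter Helper80.CW Helper82.CW Helper14.CW Helper93.MEI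
open Helper82.M2 Pool.Agent.Helper31.SR.FinT
open scoped RealInnerProductSpace Topology

/-- a body of width one that contains a copy of a body `K` of width one in a ball of radius `R`,
shrunk by `l`, is in a ball of radius `l R + 1 - l` -/
theorem ball_of_sub {K L : Set E3} (hK : IsCompact K) (hw : Width1 K) (hL : IsCompact L)
    (hwL : Width1 L) {x0 x : E3} {R l : ℝ} (hl : 0 < l) (hx : K ⊆ closedBall x R)
    (hm : ∀ q : E3, q + x0 ∈ K → l • q ∈ L) :
    L ⊆ closedBall (l • (x - x0)) (l * R + (1 - l)) := by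
  intro q hq
  rw [mem_closedBall, dist_eq_norm]
  set c : E3 := l • (x - x0) with hc
  obtain ⟨z0, hz0⟩ := hw.nonempty
  have hR0 : 0 ≤ R := dist_nonneg.trans (mem_closedBall.1 (hx hz0))
  by_cases hqc : q - c = 0
  · -- the width gives `1 - l (1 - R) ≥ 0`
    rw [hqc, norm_zero]
    have hu : ‖(EuclideanSpace.single 0 1 : E3)‖ = 1 := by simp
    set u : E3 := EuclideanSpace.single 0 1
    have h1 := hw u hu
    have h2 := hwL u hu
    obtain ⟨z, hz, hzs⟩ := (hK.image (f := fun y : E3 => (inner ℝ y u : ℝ)) (by fun_prop)).sInf_mem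
      (hw.nonempty.image _)
    obtain ⟨z', hz', hzs'⟩ := (hK.image (f := fun y : E3 => (inner ℝ y u : ℝ)) (by fun_prop)).sSup_mem
      (hw.nonempty.image _)
    have e1 : l • (z - x0) ∈ L := hm _ (by simpa using hz)
    have e2 : l • (z' - x0) ∈ L := hm _ (by simpa using hz')
    have bb : BddAbove ((fun y : E3 => (inner ℝ y u : ℝ)) '' L) :=
      (hL.image (by fun_prop)).bddAbove
    have bl : BddBelow ((fun y : E3 => (inner ℝ y u : ℝ)) '' L) :=
      (hL.image (by fun_prop)).bddBelow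
    have f1 := csInf_le bl ⟨_, e1, rfl⟩
    have f2 := le_csSup bb ⟨_, e2, rfl⟩
    simp only at hzs hzs' f1 f2
    rw [← hzs, ← hzs'] at h1
    rw [real_inner_smul_left, inner_sub_left] at f1 f2
    have hl1 : l ≤ 1 := by nlinarith
    nlinarith
  · set d := ‖q - c‖ with hd
    have hd0 : 0 < d := norm_pos_iff.2 hqc
    set u : E3 := d⁻¹ • (q - c) with hu'
    have hu : ‖u‖ = 1 := by
      rw [hu', norm_smul, norm_inv, Real.norm_of_nonneg hd0.le, ← hd, inv_mul_cancel₀ hd0.ne']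
    have h1 := hw u hu
    have h2 := hwL u hu
    obtain ⟨z, hz, hzs⟩ := (hK.image (f := fun y : E3 => (inner ℝ y u : ℝ)) (by fun_prop)).sInf_mem
      (hw.nonempty.image _)
    obtain ⟨z', hz', hzs'⟩ := (hK.image (f := fun y : E3 => (inner ℝ y u : ℝ)) (by fun_prop)).sSup_mem
      (hw.nonempty.image _)
    have e1 : l • (z - x0) ∈ L := hm _ (by simpa using hz)
    have bb : BddAbove ((fun y : E3 => (inner ℝ y u : ℝ)) '' L) :=
      (hL.image (by fun_prop)).bddAbove
    have bl : BddBelow ((fun y : E3 => (inner ℝ y u : ℝ)) '' L) :=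
      (hL.image (by fun_prop)).bddBelow
    have f1 := csInf_le bl ⟨_, e1, rfl⟩
    have f2 := le_csSup bb ⟨_, hq, rfl⟩
    simp only at hzs hzs' f1 f2
    rw [← hzs, ← hzs'] at h1
    rw [real_inner_smul_left, inner_sub_left] at f1
    have g1 : (inner ℝ (z' - x) u : ℝ) ≤ R := by
      have h3 := hx hz'
      rw [mem_closedBall, dist_eq_norm] at h3
      calc (inner ℝ (z' - x) u : ℝ) ≤ ‖z' - x‖ * ‖u‖ := real_inner_le_norm _ _
        _ ≤ R := by rw [hu, mul_one]; exact h3
    rw [inner_sub_left] at g1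
    have g2 : (inner ℝ (q - c) u : ℝ) = d := by
      rw [hu', real_inner_smul_right, real_inner_self_eq_norm_sq, ← hd]
      field_simp
    rw [inner_sub_left, hc, real_inner_smul_left, inner_sub_left] at g2
    nlinarith

/-- approximation by smooth bodies, with both conditions on the circumradius -/
theorem approx_two {K : Set E3} (hK : IsCompact K) (hc : Convex ℝ K) (hw : Width1 K)
    {R0 R0' R1 R1' : ℝ} (hR' : 0 < R0') (hRR : R0' < R0) (hR1 : R1 < R1')
    (hno : ¬ ∃ x, K ⊆ closedBall x R0) (hyes : ∃ x, K ⊆ closedBall x R1) :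
    ∃ f : ℕ → E3 → ℝ, ∃ v : ℕ → ENNReal,
      (∀ n, SSup (f n) 1) ∧ (∀ n x, x ≠ 0 → 0 < f n x) ∧ (∀ n, volume (Bd (f n)) ≤ v n) ∧
      Tendsto v atTop (𝓝 (volume K)) ∧ (∀ n, ¬ ∃ x, Bd (f n) ⊆ closedBall x R0') ∧
      ∀ n, ∃ x, Bd (f n) ⊆ closedBall x R1' := by
  obtain ⟨x0, hx0, f, l, v, hS, hpos, hl, hmem, hv, hvt, hnn⟩ := approx_no hK hc hw hR' hRR hno
  obtain ⟨x, hx⟩ := hyes
  have ht1 : Tendsto (fun n => l n * R1 + (1 - l n)) atTop (𝓝 (1 * R1 + (1 - 1))) :=
    (hl.mul_const R1).add (tendsto_const_nhds.sub hl)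
  have h1 : ∀ᶠ n in atTop, l n * R1 + (1 - l n) < R1' := by
    apply (tendsto_order.1 ht1).2
    linarith
  have h2 : ∀ᶠ n in atTop, (0 : ℝ) < l n := by
    apply (tendsto_order.1 hl).1
    norm_num
  obtain ⟨N, hN⟩ := eventually_atTop.1 (h1.and h2)
  have ht : Tendsto (fun n : ℕ => n + N) atTop atTop := tendsto_add_atTop_nat N
  refine ⟨fun n => f (n + N), fun n => v (n + N), fun n => hS _, fun n => hpos _, fun n => hv _,
    hvt.comp ht, fun n => hnn _, fun n => ?_⟩
  obtain ⟨a1, a2⟩ := hN (n + N) (Nat.le_add_left _ _)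
  refine ⟨l (n + N) • (x - x0), ?_⟩
  have h3 : Bd (f (n + N)) ⊆ closedBall (l (n + N) • (x - x0)) (l (n + N) * R1 + (1 - l (n + N))) :=
    ball_of_sub hK hw (Helper37.FX.Bd_compact (hS _)) (width_Bd (hS _)) a2 hx (hmem _)
  exact h3.trans (closedBall_subset_closedBall a1.le)

/-- **the top range from the smooth bodies** -/
theorem top_of_smooth {R0 R0' R1 R1' W : ℝ} (hR' : 0 < R0') (hRR : R0' < R0) (hR1 : R1 < R1')
    (hW : Helper96.MEI.VMe < W) (hW0 : 0 < W)
    (H : ∀ f : E3 → ℝ, SSup f 1 → (∀ x, x ≠ 0 → 0 < f x) →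
      (¬ ∃ x, Bd f ⊆ closedBall x R0') → (∃ x, Bd f ⊆ closedBall x R1') →
      ENNReal.ofReal W ≤ volume (Bd f)) : Top R0 R1 := by
  intro K hK hc hw h0 h1
  obtain ⟨f, v, hS, hpos, hv, hvt, hn0, hn1⟩ := approx_two hK hc hw hR' hRR hR1 h0 h1
  have h2 : ENNReal.ofReal W ≤ volume K :=
    ge_of_tendsto' hvt fun n => (H (f n) (hS n) (hpos n) (hn0 n) (hn1 n)).trans (hv n)
  refine lt_of_lt_of_le ?_ h2
  rw [ENNReal.ofReal_lt_ofReal_iff hW0]
  exact hW

/-- the number -/
theorem vme_lt {V : ℝ} (hV : V ≤ 0.01651) :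
    Helper96.MEI.VMe < Real.pi / 6 - 2 * Real.pi * V := by
  have h3 := Helper73.FARP.vm_lt
  have h4 : Helper96.MEI.VMe = Helper82.CW.VM := rfl
  have h5 := Real.pi_gt_d6
  rw [h4]
  nlinarith

/-- **the form for the certificates**: `V` the value, `R1'` may be taken `R1 + ε` -/
theorem top_of_value {R0 R0' R1 R1' V : ℝ} (hR' : 0 < R0') (hRR : R0' < R0) (hR1 : R1 < R1')
    (hV : V ≤ 0.01651)
    (H : ∀ f : E3 → ℝ, SSup f 1 → (∀ x, x ≠ 0 → 0 < f x) →
      (¬ ∃ x, Bd f ⊆ closedBall x R0') → (∃ x, Bd f ⊆ closedBall x R1') →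
      ENNReal.ofReal (Real.pi / 6 - 2 * Real.pi * V) ≤ volume (Bd f)) : Top R0 R1 := by
  refine top_of_smooth hR' hRR hR1 (vme_lt hV) ?_ H
  have h5 := Real.pi_gt_d6
  nlinarith

end Pool.Agent.Helper6.TOP
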