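import Pool.Agent.Helper6.TOP.Glue
import Pool.Agent.Helper6.TOP.Dom
import Pool.Agent.Helper23.CP.Glue

/-!
# Project TOP: the range theorem

`top_range`: `Top R0 R1` from the configuration lemma (helper23), a volume theorem of the form of
`Helper80.CW.DL` and the cells of the chamber.
-/

set_option autoImplicit false
set_option linter.all false

namespace Pool.Agent.Helper6.TOP

open Set Metric MeasureTheory Helper82.CW Helper80.CW Helper80.CW.DL Helper37.FX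
open Pool.Agent.Helper31.SR.FinT
open scoped RealInnerProductSpace Topology

/-- the parameters of a range are consistent -/
structure RangeOK (R0 R0' R1 R1' T1 X r δ e1 e2 : ℝ) : Prop where
  h0 : 0 < R0'
  h3 : 1 / 3 ≤ R0' ^ 2
  h1 : R0' < R0
  h2 : R1 < R1'
  h4 : R1' ≤ 6124 / 10000
  hX0 : 0 ≤ X
  hX1 : X ≤ 18 / 100
  hX : 3 - 8 * R0' ^ 2 ≤ X * (4 * R0' ^ 2 - 1)
  hT : T1 ≤ 6 - 16 * R1' ^ 2
  hr : |r - Real.sqrt 2 / 2| ≤ δ
  he1 : X ^ 2 / (1 - X) / 32 ≤ e1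
  he2 : (711 / 10000 + 133 / 1000 * X) * X ^ 2 + 3 * δ ≤ e2
  he : e1 ≤ 1 / 100

/-- the rational approximation of `√2 / 2` -/
theorem abs_r {r δ : ℝ} (h0 : 0 ≤ r - δ) (h1 : (r - δ) ^ 2 ≤ 1 / 2) (h2 : 1 / 2 ≤ (r + δ) ^ 2)
    (h3 : 0 ≤ r + δ) : |r - Real.sqrt 2 / 2| ≤ δ := by
  have h22 : Real.sqrt 2 ^ 2 = 2 := Real.sq_sqrt (by norm_num)
  have h2' : (0 : ℝ) ≤ Real.sqrt 2 / 2 := by positivity
  have e : (Real.sqrt 2 / 2) ^ 2 = 1 / 2 := by rw [div_pow, h22]; norm_num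
  have a1 : r - δ ≤ Real.sqrt 2 / 2 := by
    by_contra h
    push Not at h
    nlinarith
  have a2 : Real.sqrt 2 / 2 ≤ r + δ := by
    by_contra h
    push Not at h
    nlinarith
  rw [abs_le]
  constructor <;> linarith

/-- **the range theorem** -/
theorem top_range {R0 R0' R1 R1' T1 X r δ e1 e2 V : ℝ} (hp : RangeOK R0 R0' R1 R1' T1 X r δ e1 e2)
    (hV : V ≤ 0.01651) {Good : V3 → V3 → Prop}
    (hvol : ∀ f : E3 → ℝ, SSup f 1 → ∀ x0 ∈ Bd f, ∀ (B : E3 ≃ₗᵢ[ℝ] E3) (t : St → ℝ),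
      (∀ u p : E3, ‖u‖ = 1 → x0 + B (p + (1 / 2 : ℝ) • u) ∈ Bd f →
        x0 + B (p - (1 / 2 : ℝ) • u) ∈ Bd f → DomC T1 X r e1 e2 t (v3 u) (v3 p)) →
      (∀ (t : St → ℝ) (u p : V3), u.1 ^ 2 + u.2.1 ^ 2 + u.2.2 ^ 2 = 1 → 0 ≤ u.2.2 →
        u.2.2 ≤ u.2.1 → u.2.1 ≤ u.1 → DomC T1 X r e1 e2 t u p → Good u p) →
      ENNReal.ofReal (Real.pi / 6 - 2 * Real.pi * V) ≤ volume (Bd f))
    (T : UT) (L : List UC) (h : T.ok rootU = true) (hL : T.leaves rootU = L)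
    (hl : AllC (DomP T1 X r e1 e2 Good) L) : Top R0 R1 := by
  refine top_of_value hp.h0 hp.h1 hp.h2 hV fun f hf _ hno hin => ?_
  have hd : ∀ x ∈ Bd f, ∀ y ∈ Bd f, dist x y ≤ 1 := by
    intro x hx y hy
    rw [dist_eq_norm]
    exact Helper37.FX.Bd_dist hf hx hy
  obtain ⟨x0, B, t, hx0, hB⟩ := Pool.Agent.Helper23.CP.glue (Helper37.FX.Bd_compact hf)
    (Helper37.FX.Bd_convex f) hd hp.h0.le hp.h3 hno hin hp.h4 hp.hX0 hp.hX1 hp.hX hp.hT hp.hr hp.he1 hp.he2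
  exact hvol f hf x0 hx0 B t hB fun t u p => dom_all hp.he T L h hL hl t u p

/-- example of the parameters -/
example : RangeOK 0.6094 (0.6094 - 1e-6) 0.6109 (0.6109 + 1e-6) (2879 / 100000) (599 / 10000)
    (70710678 / 100000000) (1 / 100000000) (12 / 100000) (2850 / 10000000) := by
  constructor
  all_goals first | exact abs_r (by norm_num) (by norm_num) (by norm_num) (by norm_num) | norm_num

end Pool.Agent.Helper6.TOP
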