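import Pool.Agent.Helper80.CW.DK

/-!
# Project TOP: comparison of the rows of the constraints with literals
-/

set_option autoImplicit false
set_option linter.all false

namespace Pool.Agent.Helper6.TOP

open Helper80.CW.DL Pool.Agent.Helper45.TOP

/-- equality of integers as a Boolean -/
def ieq (a b : ℤ) : Bool := decide (a = b)

/-- equality of constraints -/
def ceq (v w : Cv) : Bool :=
  ieq v.sa w.sa && ieq v.da w.da && ieq v.sb0 w.sb0 && ieq v.sb1 w.sb1 && ieq v.sb2 w.sb2 &&
    ieq v.db0 w.db0 && ieq v.db1 w.db1 && ieq v.db2 w.db2 && ieq v.sc w.sc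

theorem ceq_sound {v w : Cv} (h : ceq v w = true) : v = w := by
  obtain ⟨a1, a2, a3, a4, a5, a6, a7, a8, a9⟩ := v
  obtain ⟨b1, b2, b3, b4, b5, b6, b7, b8, b9⟩ := w
  simp only [ceq, ieq, Bool.and_eq_true, decide_eq_true_eq] at h
  obtain ⟨⟨⟨⟨⟨⟨⟨⟨rfl, rfl⟩, rfl⟩, rfl⟩, rfl⟩, rfl⟩, rfl⟩, rfl⟩, rfl⟩ := h
  rfl

def leq : List Cv → List Cv → Bool
  | [], [] => true
  | a :: l, b :: m => ceq a b && leq l m
  | _, _ => false

theorem leq_sound : ∀ {l m : List Cv}, leq l m = true → l = m
  | [], [], _ => rfl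
  | [], _ :: _, h => by simp [leq] at h
  | _ :: _, [], h => by simp [leq] at h
  | a :: l, b :: m, h => by
    simp only [leq, Bool.and_eq_true] at h
    rw [ceq_sound h.1, leq_sound h.2]

def req : List (List Cv) → List (List Cv) → Bool
  | [], [] => true
  | a :: l, b :: m => leq a b && req l m
  | _, _ => false

/-- equality of the rows -/
theorem req_sound : ∀ {l m : List (List Cv)}, req l m = true → l = m
  | [], [], _ => rfl
  | [], _ :: _, h => by simp [req] at h
  | _ :: _, [], h => by simp [req] at h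
  | a :: l, b :: m, h => by
    simp only [req, Bool.and_eq_true] at h
    rw [leq_sound h.1, req_sound h.2]

end Pool.Agent.Helper6.TOP
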