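import Mathlib

/-!
# Project TOP: reduction to one chamber

`T_d` (permutations of the coordinates and changes of two signs, the same in `u` and `p`) together
with `(u, p) -> (-u, p)` moves every unit vector `u` to the chamber `0 <= u 2 <= u 1 <= u 0`.
-/

set_option autoImplicit false
set_option linter.all false

namespace Pool.Agent.Helper6.TOP

/-- a property of vectors that passes from the images to the vector for the generators -/
theorem chamber_vec {Q : ℝ → ℝ → ℝ → Prop}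
    (h01 : ∀ a b c, Q b a c → Q a b c) (h12 : ∀ a b c, Q a c b → Q a b c)
    (hs : ∀ a b c, Q (-a) (-b) c → Q a b c) (hn : ∀ a b c, Q (-a) (-b) (-c) → Q a b c)
    (hc : ∀ a b c, a ^ 2 + b ^ 2 + c ^ 2 = 1 → 0 ≤ c → c ≤ b → b ≤ a → Q a b c) :
    ∀ a b c, a ^ 2 + b ^ 2 + c ^ 2 = 1 → Q a b c := by
  have h02 : ∀ a b c, Q c b a → Q a b c := fun a b c h => h01 _ _ _ (h12 _ _ _ (h01 _ _ _ h))
  have key : ∀ a b c, a ^ 2 + b ^ 2 + c ^ 2 = 1 → 0 ≤ a → 0 ≤ b → 0 ≤ c → Q a b c := by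
    intro a b c h ha hb hcc
    rcases le_total b a with h1 | h1 <;> rcases le_total c b with h2 | h2 <;>
      rcases le_total c a with h3 | h3
    · exact hc _ _ _ h hcc h2 h1
    · exact hc _ _ _ h hcc h2 h1
    · exact h12 _ _ _ (hc _ _ _ (by linarith) hb h2 h3)
    · exact h12 _ _ _ (h01 _ _ _ (hc _ _ _ (by linarith) hb h1 h3))
    · exact h01 _ _ _ (hc _ _ _ (by linarith) hcc h3 h1)
    · exact h01 _ _ _ (h12 _ _ _ (hc _ _ _ (by linarith) ha h3 h2))
    · exact h02 _ _ _ (hc _ _ _ (by linarith) ha h1 h2)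
    · exact h02 _ _ _ (hc _ _ _ (by linarith) ha h1 h2)
  have hs' : ∀ a b c, Q (-a) b (-c) → Q a b c := fun a b c h =>
    h12 _ _ _ (hs _ _ _ (h12 _ _ _ h))
  have hs'' : ∀ a b c, Q a (-b) (-c) → Q a b c := fun a b c h =>
    h01 _ _ _ (hs' _ _ _ (h01 _ _ _ h))
  intro a b c h
  rcases le_total 0 a with ha | ha <;> rcases le_total 0 b with hb | hb <;>
    rcases le_total 0 c with hcc | hcc
  · exact key _ _ _ h ha hb hcc
  · exact hn _ _ _ (hs _ _ _ (by
      simpa using key a b (-c) (by linarith [neg_sq c]) ha hb (by linarith)))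
  · exact hn _ _ _ (hs' _ _ _ (by
      simpa using key a (-b) c (by linarith [neg_sq b]) ha (by linarith) hcc))
  · exact hs'' _ _ _ (key _ _ _ (by linarith [neg_sq b, neg_sq c]) ha (by linarith) (by linarith))
  · exact hn _ _ _ (hs'' _ _ _ (by
      simpa using key (-a) b c (by linarith [neg_sq a]) (by linarith) hb hcc))
  · exact hs' _ _ _ (key _ _ _ (by linarith [neg_sq a, neg_sq c]) (by linarith) hb (by linarith))
  · exact hs _ _ _ (key _ _ _ (by linarith [neg_sq a, neg_sq b]) (by linarith) (by linarith) hcc)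
  · exact hn _ _ _ (key _ _ _ (by linarith [neg_sq a, neg_sq b, neg_sq c]) (by linarith)
      (by linarith) (by linarith))

/-- the symmetries of a property of pairs `(u, p)` in coordinates -/
structure SymP (P : ℝ → ℝ → ℝ → ℝ → ℝ → ℝ → Prop) : Prop where
  s01 : ∀ a b c x y z, P b a c y x z → P a b c x y z
  s12 : ∀ a b c x y z, P a c b x z y → P a b c x y z
  sg : ∀ a b c x y z, P (-a) (-b) c (-x) (-y) z → P a b c x y z
  ng : ∀ a b c x y z, P (-a) (-b) (-c) x y z → P a b c x y z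

/-- **one chamber is enough** -/
theorem SymP.all {P : ℝ → ℝ → ℝ → ℝ → ℝ → ℝ → Prop} (h : SymP P)
    (hc : ∀ a b c x y z, a ^ 2 + b ^ 2 + c ^ 2 = 1 → 0 ≤ c → c ≤ b → b ≤ a → P a b c x y z)
    (a b c x y z : ℝ) (hu : a ^ 2 + b ^ 2 + c ^ 2 = 1) : P a b c x y z :=
  chamber_vec (Q := fun a b c => ∀ x y z, P a b c x y z)
    (fun a b c H x y z => h.s01 _ _ _ _ _ _ (H y x z))
    (fun a b c H x y z => h.s12 _ _ _ _ _ _ (H x z y))
    (fun a b c H x y z => h.sg _ _ _ _ _ _ (H (-x) (-y) z))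
    (fun a b c H x y z => h.ng _ _ _ _ _ _ (H x y z))
    (fun a b c hu h0 h1 h2 x y z => hc a b c x y z hu h0 h1 h2) a b c hu x y z

/-- a function with the symmetries (`ε = 1` even, `ε = -1` odd in `u -> -u`) -/
structure SymF (ε : ℝ) (F : ℝ → ℝ → ℝ → ℝ → ℝ → ℝ → ℝ) : Prop where
  s01 : ∀ a b c x y z, F b a c y x z = F a b c x y z
  s12 : ∀ a b c x y z, F a c b x z y = F a b c x y z
  sg : ∀ a b c x y z, F (-a) (-b) c (-x) (-y) z = F a b c x y z
  ng : ∀ a b c x y z, F (-a) (-b) (-c) x y z = ε * F a b c x y z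

/-- **the form for project TOP**: `E0`, `E2` even, `E1` odd, the domain `D` symmetric. -/
theorem top_chamber {E0 E1 E2 : ℝ → ℝ → ℝ → ℝ → ℝ → ℝ → ℝ}
    {D : ℝ → ℝ → ℝ → ℝ → ℝ → ℝ → Prop} {V : ℝ} (h0 : SymF 1 E0) (h1 : SymF (-1) E1)
    (h2 : SymF 1 E2)
    (d01 : ∀ a b c x y z, D a b c x y z → D b a c y x z)
    (d12 : ∀ a b c x y z, D a b c x y z → D a c b x z y)
    (dsg : ∀ a b c x y z, D a b c x y z → D (-a) (-b) c (-x) (-y) z)
    (dng : ∀ a b c x y z, D a b c x y z → D (-a) (-b) (-c) x y z)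
    (hc : ∀ a b c x y z, a ^ 2 + b ^ 2 + c ^ 2 = 1 → 0 ≤ c → c ≤ b → b ≤ a → D a b c x y z →
      E2 a b c x y z ≤ 1 / 2 ∧ 1 / 4 + E0 a b c x y z - E2 a b c x y z / 2 ≤ V ∧
      -1 / 4 + E0 a b c x y z + E1 a b c x y z + E2 a b c x y z / 2 ≤ V ∧
      -1 / 4 + E0 a b c x y z - E1 a b c x y z + E2 a b c x y z / 2 ≤ V)
    (a b c x y z : ℝ) (hu : a ^ 2 + b ^ 2 + c ^ 2 = 1) (hD : D a b c x y z) :
    E2 a b c x y z ≤ 1 / 2 ∧ 1 / 4 + E0 a b c x y z - E2 a b c x y z / 2 ≤ V ∧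
      -1 / 4 + E0 a b c x y z + E1 a b c x y z + E2 a b c x y z / 2 ≤ V ∧
      -1 / 4 + E0 a b c x y z - E1 a b c x y z + E2 a b c x y z / 2 ≤ V := by
  refine SymP.all (P := fun a b c x y z => D a b c x y z →
      E2 a b c x y z ≤ 1 / 2 ∧ 1 / 4 + E0 a b c x y z - E2 a b c x y z / 2 ≤ V ∧
      -1 / 4 + E0 a b c x y z + E1 a b c x y z + E2 a b c x y z / 2 ≤ V ∧
      -1 / 4 + E0 a b c x y z - E1 a b c x y z + E2 a b c x y z / 2 ≤ V) ⟨?_, ?_, ?_, ?_⟩ hc
      a b c x y z hu hD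
  · intro a b c x y z H hD
    have := H (d01 _ _ _ _ _ _ hD)
    rwa [h0.s01, h1.s01, h2.s01] at this
  · intro a b c x y z H hD
    have := H (d12 _ _ _ _ _ _ hD)
    rwa [h0.s12, h1.s12, h2.s12] at this
  · intro a b c x y z H hD
    have := H (dsg _ _ _ _ _ _ hD)
    rwa [h0.sg, h1.sg, h2.sg] at this
  · intro a b c x y z H hD
    have := H (dng _ _ _ _ _ _ hD)
    rw [h0.ng, h1.ng, h2.ng] at this
    obtain ⟨t1, t2, t3, t4⟩ := this
    refine ⟨?_, ?_, ?_, ?_⟩ <;> linarith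

end Pool.Agent.Helper6.TOP
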